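import Pool.Agent.Work.MP_505f06_an.Fourier

/-!
# Solution of the cohomological equation over the rotation by `(√2, √3) / M`
-/

open Filter Topology MeasureTheory UnitAddTorus

namespace HRTCounter

theorem abs_le_norm_e_sub_one {d : ℝ} (hd : |d| ≤ 1 / 2) : |d| ≤ ‖e d - 1‖ := by
  have h1 : e d = Complex.exp (Complex.I * ((2 * Real.pi * d : ℝ) : ℂ)) := by
    rw [e]; congr 1; push_cast; ring
  rw [h1, Complex.norm_exp_I_mul_ofReal_sub_one, Real.norm_eq_abs, abs_mul,
    abs_of_pos (by norm_num : (0 : ℝ) < 2), show 2 * Real.pi * d / 2 = Real.pi * d by ring]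
  have h2 : |Real.pi * d| ≤ Real.pi / 2 := by
    rw [abs_mul, abs_of_pos Real.pi_pos]
    nlinarith [Real.pi_pos]
  have h3 := Real.mul_abs_le_abs_sin h2
  rw [abs_mul, abs_of_pos Real.pi_pos] at h3
  have h4 : 2 / Real.pi * (Real.pi * |d|) = 2 * |d| := by
    field_simp
  rw [h4] at h3
  linarith [abs_nonneg d]

theorem le_norm_e_sub_one {t δ : ℝ} (h : ∀ m : ℤ, δ ≤ |t - m|) : δ ≤ ‖e t - 1‖ := by
  have h1 : e t = e (t - round t) := by
    have := e_add_int (t - round t) (round t)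
    rwa [sub_add_cancel] at this
  rw [h1]
  exact (h _).trans (abs_le_norm_e_sub_one (abs_sub_round t))

/-- The denominators. -/
noncomputable def den (M : ℕ) (n : Fin 2 → ℤ) : ℂ :=
  e (-(n 0 * (√2 / M) + n 1 * (√3 / M))) - 1

theorem norm_den_ge {M : ℕ} (hM : 0 < M) {n : Fin 2 → ℤ} (hn : n ≠ 0) :
    1 / (512 * M * ‖n‖ ^ 3) ≤ ‖den M n‖ := by
  have hM' : (0 : ℝ) < M := by exact_mod_cast hM
  have hnorm := EisensteinSeries.norm_eq_max_natAbs n
  have hpos : 0 < ‖n‖ := norm_pos_iff.2 hn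
  have hB1 : 1 ≤ ‖n‖ := by
    rw [hnorm] at hpos ⊢
    exact_mod_cast hpos
  have h0 : |((n 0 : ℤ) : ℝ)| ≤ ‖n‖ := by
    have := norm_le_pi_norm n 0
    rwa [Int.norm_eq_abs] at this
  have h1 : |((n 1 : ℤ) : ℝ)| ≤ ‖n‖ := by
    have := norm_le_pi_norm n 1
    rwa [Int.norm_eq_abs] at this
  have hne : ¬ (n 0 = 0 ∧ n 1 = 0) := by
    rintro ⟨h2, h3⟩
    apply hn
    funext i
    fin_cases i
    · exact h2
    · exact h3
  refine le_norm_e_sub_one fun m => ?_
  have h4 := abs_linear_form_ge (a := m * M) hB1 h0 h1 hne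
  have h5 : |-((n 0 : ℝ) * (√2 / M) + n 1 * (√3 / M)) - m| =
      |((m * M : ℤ) : ℝ) + n 0 * √2 + n 1 * √3| / M := by
    rw [← abs_neg, ← abs_of_pos hM', ← abs_div, abs_of_pos hM']
    congr 1
    push_cast
    field_simp
    ring
  rw [h5, le_div_iff₀ hM']
  calc 1 / (512 * M * ‖n‖ ^ 3) * M = 1 / (512 * ‖n‖ ^ 3) := by field_simp
    _ ≤ _ := h4

theorem exists_solution {ψ : Plane → ℂ} (hψ : ContDiff ℝ 6 ψ) (hp : Per ψ) {M : ℕ}
    (hM : 0 < M) : ∃ (φ : Plane → ℂ) (c : ℂ), Continuous φ ∧ Per φ ∧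
      ∀ x ξ : ℝ, φ (x - √2 / M, ξ - √3 / M) - φ (x, ξ) = ψ (x, ξ) - c := by
  have hM' : (0 : ℝ) < M := by exact_mod_cast hM
  obtain ⟨F, hF⟩ := exists_lift hψ.continuous hp
  obtain ⟨C, hC, hb⟩ := exists_coeff_bound hψ hp hF
  set cf : (Fin 2 → ℤ) → ℂ := fun n => mFourierCoeff F n with hcf
  have hpos : ∀ {n : Fin 2 → ℤ}, n ≠ 0 → 1 ≤ ‖n‖ := by
    intro n hn
    have hpos : 0 < ‖n‖ := norm_pos_iff.2 hn
    rw [EisensteinSeries.norm_eq_max_natAbs n] at hpos ⊢
    exact_mod_cast hpos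
  have hsum3 : Summable fun n : Fin 2 → ℤ => ‖n‖ ^ (-(3 : ℝ)) :=
    EisensteinSeries.summable_one_div_norm_rpow (by norm_num)
  have hr3 : ∀ {n : Fin 2 → ℤ}, n ≠ 0 → ‖n‖ ^ (-(3 : ℝ)) = 1 / ‖n‖ ^ 3 := by
    intro n hn
    rw [Real.rpow_neg (norm_nonneg _), one_div]
    congr 1
    exact_mod_cast Real.rpow_natCast ‖n‖ 3
  have hcf6 : ∀ {n : Fin 2 → ℤ}, n ≠ 0 → ‖cf n‖ ≤ C / ‖n‖ ^ 6 := by
    intro n hn
    have : 0 < ‖n‖ := lt_of_lt_of_le one_pos (hpos hn)
    rw [le_div_iff₀ (by positivity)]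
    exact hb n
  -- summability of the coefficients
  have hcfs : Summable cf := by
    refine Summable.of_norm_bounded
      (g := fun n => C * ‖n‖ ^ (-(3 : ℝ)) + if n = 0 then ‖cf 0‖ else 0)
      ((hsum3.mul_left C).add (hasSum_ite_eq (0 : Fin 2 → ℤ) ‖cf 0‖).summable) fun n => ?_
    by_cases hn : n = 0
    · rw [hn, if_pos rfl]
      have : 0 ≤ C * ‖(0 : Fin 2 → ℤ)‖ ^ (-(3 : ℝ)) := by positivity
      linarith
    · rw [if_neg hn, add_zero, hr3 hn]
      refine (hcf6 hn).trans ?_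
      rw [mul_one_div]
      have h1 := hpos hn
      refine div_le_div_of_nonneg_left hC (by positivity) ?_
      exact pow_le_pow_right₀ h1 (by norm_num)
  set d : (Fin 2 → ℤ) → ℂ := fun n => if n = 0 then 0 else cf n / den M n with hd
  have hdb : ∀ n, ‖d n‖ ≤ 512 * M * C * ‖n‖ ^ (-(3 : ℝ)) := by
    intro n
    by_cases hn : n = 0
    · rw [hd]
      simp only [hn, if_true, norm_zero]
      positivity
    · rw [hd]
      simp only [if_neg hn, norm_div]
      rw [hr3 hn]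
      have h1 := hpos hn
      have h2 : 0 < ‖n‖ := lt_of_lt_of_le one_pos h1
      have h3 := norm_den_ge hM hn
      have h4 : 0 < 1 / (512 * (M : ℝ) * ‖n‖ ^ 3) := by positivity
      calc ‖cf n‖ / ‖den M n‖ ≤ (C / ‖n‖ ^ 6) / (1 / (512 * M * ‖n‖ ^ 3)) :=
            div_le_div₀ (by positivity) (hcf6 hn) h4 h3
        _ = 512 * M * C * (1 / ‖n‖ ^ 3) := by field_simp
  have hds : Summable fun n : Fin 2 → ℤ => 512 * M * C * ‖n‖ ^ (-(3 : ℝ)) :=
    hsum3.mul_left _
  set term : (Fin 2 → ℤ) → Plane → ℂ := fun n p => d n * e (n 0 * p.1 + n 1 * p.2) with hterm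
  have htb : ∀ n p, ‖term n p‖ ≤ 512 * M * C * ‖n‖ ^ (-(3 : ℝ)) := by
    intro n p
    rw [hterm]
    simp only [norm_mul, norm_e, mul_one]
    exact hdb n
  have hts : ∀ p, Summable fun n => term n p := fun p =>
    Summable.of_norm_bounded hds fun n => htb n p
  refine ⟨fun p => ∑' n, term n p, cf 0, ?_, ⟨fun x ξ => ?_, fun x ξ => ?_⟩, fun x ξ => ?_⟩
  · refine continuous_tsum (fun n => ?_) hds htb
    exact continuous_const.mul (continuous_e.comp (by fun_prop))
  · refine tsum_congr fun n => ?_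
    simp only [hterm]
    rw [show (n 0 : ℝ) * (x + 1) + n 1 * ξ = (n 0 * x + n 1 * ξ) + (n 0 : ℤ) by ring, e_add_int]
  · refine tsum_congr fun n => ?_
    simp only [hterm]
    rw [show (n 0 : ℝ) * x + n 1 * (ξ + 1) = (n 0 * x + n 1 * ξ) + (n 1 : ℤ) by ring, e_add_int]
  · have h1 : HasSum (fun n => term n (x - √2 / M, ξ - √3 / M) - term n (x, ξ))
        ((∑' n, term n (x - √2 / M, ξ - √3 / M)) - ∑' n, term n (x, ξ)) :=
      (hts _).hasSum.sub (hts _).hasSum
    have h2 : HasSum (fun n => mFourierCoeff F n • mFourier n (proj ![x, ξ])) (F (proj ![x, ξ])) :=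
      hasSum_mFourier_series_apply_of_summable hcfs _
    have h3 : HasSum (fun n => mFourierCoeff F n • mFourier n (proj ![x, ξ]) -
        if n = 0 then cf 0 else 0) (F (proj ![x, ξ]) - cf 0) :=
      h2.sub (hasSum_ite_eq (0 : Fin 2 → ℤ) (cf 0))
    have h4 : (fun n => term n (x - √2 / M, ξ - √3 / M) - term n (x, ξ)) =
        fun n => mFourierCoeff F n • mFourier n (proj ![x, ξ]) - if n = 0 then cf 0 else 0 := by
      funext n
      rw [mFourier_proj]
      simp only [hterm, hd, Matrix.cons_val_zero, Matrix.cons_val_one, smul_eq_mul]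
      by_cases hn : n = 0
      · simp [hn, hcf, e_zero]
      · rw [if_neg hn, if_neg hn, sub_zero]
        have h5 : den M n ≠ 0 := by
          intro h0
          have h6 := norm_den_ge hM hn
          rw [h0, norm_zero] at h6
          have h7 := hpos hn
          have : 0 < 1 / (512 * (M : ℝ) * ‖n‖ ^ 3) := by positivity
          linarith
        have h6 : e (n 0 * (x - √2 / M) + n 1 * (ξ - √3 / M)) =
            e (n 0 * x + n 1 * ξ) * (den M n + 1) := by
          rw [den, sub_add_cancel, ← e_add]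
          congr 1
          ring
        rw [h6]
        field_simp
        ring
    rw [h4] at h1
    have h5 := h1.unique h3
    have h6 : F (proj ![x, ξ]) = ψ (x, ξ) := by
      have := hF ![x, ξ]
      simpa using this
    rw [h6] at h5
    exact h5

end HRTCounter
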