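import Pool.Agent.Work.MP_505f06_an.Ratio

/-!
# Trigonometric polynomials of two variables
-/

namespace HRTCounter

/-- The characters of the plane. -/
noncomputable def chi (k : ℤ × ℤ) (p : Plane) : ℂ := e (k.1 * p.1 + k.2 * p.2)

/-- The monoid of characters. -/
noncomputable def chiM : Submonoid (Plane → ℂ) where
  carrier := Set.range chi
  mul_mem' := by
    rintro _ _ ⟨k, rfl⟩ ⟨l, rfl⟩
    refine ⟨k + l, ?_⟩
    funext p
    simp only [Pi.mul_apply, chi, ← e_add]
    congr 1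
    push_cast [Prod.fst_add, Prod.snd_add]
    ring
  one_mem' := by
    refine ⟨0, ?_⟩
    funext p
    simp [chi, e_zero]

/-- The algebra of trigonometric polynomials. -/
noncomputable def trig : Subalgebra ℂ (Plane → ℂ) := Algebra.adjoin ℂ (Set.range chi)

theorem chi_mem (k : ℤ × ℤ) : chi k ∈ trig := Algebra.subset_adjoin ⟨k, rfl⟩

theorem const_mem (c : ℂ) : (fun _ : Plane => c) ∈ trig := trig.algebraMap_mem c

theorem exists_expansion {f : Plane → ℂ} (hf : f ∈ trig) :
    ∃ A : (ℤ × ℤ) →₀ ℂ, ∀ p, f p = ∑ k ∈ A.support, A k * chi k p := by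
  have h1 : f ∈ Submodule.span ℂ (Set.range chi) := by
    have h2 : f ∈ Subalgebra.toSubmodule (Algebra.adjoin ℂ (Set.range chi)) := hf
    rw [Algebra.adjoin_eq_span] at h2
    have h3 : Submonoid.closure (Set.range chi) = chiM :=
      Submonoid.closure_eq chiM
    rw [h3] at h2
    exact h2
  rw [Finsupp.mem_span_range_iff_exists_finsupp] at h1
  obtain ⟨A, hA⟩ := h1
  refine ⟨A, fun p => ?_⟩
  rw [← hA, Finsupp.sum, Finset.sum_apply]
  rfl

theorem trig_shift {f : Plane → ℂ} (hf : f ∈ trig) (z : Plane) :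
    (fun p : Plane => f (p.1 - z.1, p.2 - z.2)) ∈ trig := by
  unfold trig at hf
  induction hf using Algebra.adjoin_induction with
  | mem f hf =>
    obtain ⟨k, rfl⟩ := hf
    have h : (fun p : Plane => chi k (p.1 - z.1, p.2 - z.2)) =
        (fun _ => e (-(k.1 * z.1 + k.2 * z.2))) * chi k := by
      funext p
      simp only [Pi.mul_apply, chi, ← e_add]
      congr 1
      ring
    rw [h]
    exact mul_mem (const_mem _) (chi_mem k)
  | algebraMap r => exact const_mem r
  | add f g _ _ h1 h2 => exact add_mem h1 h2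
  | mul f g _ _ h1 h2 => exact mul_mem h1 h2

theorem cos_sq_mem : (fun p : Plane => ((Real.cos (Real.pi * p.1) : ℝ) : ℂ) ^ 2) ∈ trig := by
  have h : (fun p : Plane => ((Real.cos (Real.pi * p.1) : ℝ) : ℂ) ^ 2) =
      (fun _ => (1 / 2 : ℂ)) + (fun _ => (1 / 4 : ℂ)) * (chi (1, 0) + chi (-1, 0)) := by
    funext p
    simp only [Pi.add_apply, Pi.mul_apply, chi, e]
    have h1 : ((Real.cos (Real.pi * p.1) : ℝ) : ℂ) ^ 2 =
        1 / 2 + Complex.cos (2 * (Real.pi * p.1)) / 2 := by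
      rw [Complex.ofReal_cos, Complex.cos_sq]
      push_cast
      rfl
    rw [h1, Complex.cos]
    push_cast
    ring_nf
  rw [h]
  exact add_mem (const_mem _) (mul_mem (const_mem _) (add_mem (chi_mem _) (chi_mem _)))

theorem sin_sq_mem : (fun p : Plane => ((Real.sin (Real.pi * p.1) : ℝ) : ℂ) ^ 2) ∈ trig := by
  have h : (fun p : Plane => ((Real.sin (Real.pi * p.1) : ℝ) : ℂ) ^ 2) =
      (fun _ => (1 : ℂ)) - (fun p : Plane => ((Real.cos (Real.pi * p.1) : ℝ) : ℂ) ^ 2) := by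
    funext p
    simp only [Pi.sub_apply, ← Complex.ofReal_pow]
    rw [Real.sin_sq]
    push_cast
    ring
  rw [h]
  exact sub_mem (const_mem _) cos_sq_mem

theorem uu_mem : uu ∈ trig := by
  have h : uu = (fun _ => (1 : ℂ)) -
      (fun _ => (-Complex.I / 2 : ℂ)) * (chi (1, 0) - chi (-1, 0)) := by
    funext p
    simp only [Pi.sub_apply, Pi.mul_apply, chi, e, uu]
    rw [Complex.ofReal_sub, Complex.ofReal_sin, Complex.sin]
    push_cast
    ring_nf
  rw [h]
  exact sub_mem (const_mem _) (mul_mem (const_mem _) (sub_mem (chi_mem _) (chi_mem _)))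

theorem P1_mem : P1 ∈ trig := by
  have hc : (fun p : Plane => ((Real.cos (Real.pi * p.1) : ℝ) : ℂ) ^ 8) ∈ trig := by
    have h := pow_mem cos_sq_mem 4
    have h2 : (fun p : Plane => ((Real.cos (Real.pi * p.1) : ℝ) : ℂ) ^ 8) =
        (fun p : Plane => ((Real.cos (Real.pi * p.1) : ℝ) : ℂ) ^ 2) ^ 4 := by
      funext p
      simp only [Pi.pow_apply, ← pow_mul]
    rw [h2]
    exact h
  have hs : (fun p : Plane => ((Real.sin (Real.pi * p.1) : ℝ) : ℂ) ^ 8) ∈ trig := by
    have h := pow_mem sin_sq_mem 4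
    have h2 : (fun p : Plane => ((Real.sin (Real.pi * p.1) : ℝ) : ℂ) ^ 8) =
        (fun p : Plane => ((Real.sin (Real.pi * p.1) : ℝ) : ℂ) ^ 2) ^ 4 := by
      funext p
      simp only [Pi.pow_apply, ← pow_mul]
    rw [h2]
    exact h
  have h : P1 = ((fun p : Plane => ((Real.cos (Real.pi * p.1) : ℝ) : ℂ) ^ 8) +
      (fun p : Plane => ((Real.sin (Real.pi * p.1) : ℝ) : ℂ) ^ 8)) *
      ((fun p : Plane => ((Real.cos (Real.pi * p.1) : ℝ) : ℂ) ^ 8) +
      (fun p : Plane => ((Real.sin (Real.pi * p.1) : ℝ) : ℂ) ^ 8) * chi (0, 1)) := by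
    funext p
    simp only [P1, Pi.add_apply, Pi.mul_apply, chi, Int.cast_zero, Int.cast_one, zero_mul,
      one_mul, zero_add]
  rw [h]
  exact mul_mem (add_mem hc hs) (add_mem hc (mul_mem hs (chi_mem _)))

theorem P0_mem (z : Plane) : P0 z ∈ trig := by
  have h1 : (fun p : Plane => uu (p.1 - z.1, 0)) ∈ trig := trig_shift uu_mem z
  have h2 : (fun p : Plane => uu (p.1 - 1 / 2, 0)) ∈ trig :=
    trig_shift uu_mem ((1 / 2, 0) : Plane)
  have h : P0 z = (fun p : Plane => uu (p.1 - z.1, 0)) ^ 8 * P1 +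
      (fun p : Plane => uu (p.1 - 1 / 2, 0)) ^ 8 *
        (fun p : Plane => P1 (p.1 - z.1, p.2 - z.2)) := rfl
  rw [h]
  exact add_mem (mul_mem (pow_mem h1 8) P1_mem) (mul_mem (pow_mem h2 8) (trig_shift P1_mem z))

theorem P1_zero : P1 (0, 0) = 1 := by
  simp [P1]

end HRTCounter
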