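import Pool.Agent.Work.MP_505f06_an.Window
import Pool.Agent.Work.MP_505f06_an.TrigPoly
import Pool.Agent.Work.MP_505f06_an.Solve

/-!
# A linear relation between time-frequency shifts of one continuous square-integrable function
-/

open Filter Topology MeasureTheory

namespace HRTCounter

theorem theta_ne_zero (ξ : ℝ) : theta (3 / 4, ξ) ≠ 0 := by
  intro h
  have h1 := norm_uu_le (3 / 4, ξ)
  rw [h, norm_zero, mul_zero] at h1
  have h2 : uu (3 / 4, ξ) = 2 := by
    simp only [uu]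
    rw [show 2 * Real.pi * (3 / 4) = Real.pi / 2 + Real.pi by ring, Real.sin_add_pi,
      Real.sin_pi_div_two]
    norm_num
  rw [h2] at h1
  norm_num at h1

theorem qper_theta : QPer theta := ⟨theta_add_one, theta_add_one'⟩

theorem exists_section {M : ℕ} (hM : 0 < M)
    (hS : ∀ p, 0 < (S ((√2 / M, √3 / M) : Plane) p).re) :
    ∃ (G : Plane → ℂ) (c : ℂ), Continuous G ∧ QPer G ∧ (∀ ξ, G (3 / 4, ξ) ≠ 0) ∧
      ∀ p, P0 ((√2 / M, √3 / M) : Plane) p * G p =
        Complex.exp c * P1 p * shift ((√2 / M, √3 / M) : Plane) G p := by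
  set z : Plane := (√2 / M, √3 / M) with hz
  have hψ : ContDiff ℝ 6 fun p => Complex.log (S z p) := by
    rw [contDiff_iff_contDiffAt]
    intro p
    have h1 : ContDiffAt ℂ 6 Complex.log (S z p) :=
      Complex.contDiffAt_log (Or.inl (hS p))
    exact (h1.restrict_scalars ℝ).comp p (contDiff_S z).contDiffAt
  have hp : Per fun p => Complex.log (S z p) :=
    ⟨fun x ξ => by simp only [S_add_one], fun x ξ => by simp only [S_add_one']⟩
  obtain ⟨φ, c, hφc, hφp, hφ⟩ := exists_solution hψ hp hM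
  have hS0 : ∀ p, S z p ≠ 0 := by
    intro p h
    have := hS p
    rw [h] at this
    simp at this
  refine ⟨fun p => theta p * Complex.exp (φ p), c, ?_, ⟨fun x ξ => ?_, fun x ξ => ?_⟩,
    fun ξ => mul_ne_zero (theta_ne_zero ξ) (Complex.exp_ne_zero _), fun p => ?_⟩
  · exact contDiff_theta.continuous.mul hφc.cexp
  · simp only [theta_add_one, hφp.1]
    ring
  · simp only [theta_add_one', hφp.2]
  · obtain ⟨x, ξ⟩ := p
    simp only [shift]
    have h1 := P0_mul_theta z (x, ξ)
    have h2 : φ (x - z.1, ξ - z.2) = φ (x, ξ) + Complex.log (S z (x, ξ)) - c := by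
      have := hφ x ξ
      linear_combination this
    have h3 : Complex.exp (φ (x - z.1, ξ - z.2)) =
        Complex.exp (φ (x, ξ)) * S z (x, ξ) * Complex.exp (-c) := by
      rw [h2, sub_eq_add_neg, Complex.exp_add, Complex.exp_add, Complex.exp_log (hS0 _)]
    have h4 : Complex.exp c * Complex.exp (-c) = 1 := by
      rw [← Complex.exp_add, add_neg_cancel, Complex.exp_zero]
    rw [h3]
    simp only at h1 ⊢
    linear_combination Complex.exp (φ (x, ξ)) * h1 -
      P1 (x, ξ) * (e (z.2 * x) * theta (x - z.1, ξ - z.2)) * Complex.exp (φ (x, ξ)) *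
        S z (x, ξ) * h4

theorem integral_trig {G : Plane → ℂ} (hG : Continuous G) (h : QPer G) {f : Plane → ℂ}
    {A : (ℤ × ℤ) →₀ ℂ} (hf : ∀ p, f p = ∑ k ∈ A.support, A k * chi k p) (t : ℝ) :
    ∫ ξ in (0 : ℝ)..1, f (t, ξ) * G (t, ξ) =
      ∑ k ∈ A.support, A k * (e (k.1 * t) * win G (t + k.2)) := by
  have h1 : ∀ ξ : ℝ, f (t, ξ) * G (t, ξ) =
      ∑ k ∈ A.support, A k * (e (k.1 * t + k.2 * ξ) * G (t, ξ)) := by
    intro ξ
    rw [hf, Finset.sum_mul]
    refine Finset.sum_congr rfl fun k _ => ?_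
    simp only [chi]
    ring
  have he := continuous_e
  simp only [h1]
  rw [intervalIntegral.integral_finsetSum]
  · refine Finset.sum_congr rfl fun k _ => ?_
    rw [intervalIntegral.integral_const_mul, integral_char h]
  · intro k _
    refine Continuous.intervalIntegrable ?_ _ _
    fun_prop

theorem exists_relation : ∃ (g : ℝ → ℂ) (z : Plane) (s t : Finset (ℤ × ℤ)) (a b : ℤ × ℤ → ℂ),
    Continuous g ∧ MemLp g 2 volume ∧ g ≠ 0 ∧ (∀ k : ℤ, z.1 ≠ k) ∧ (∃ k ∈ t, b k ≠ 0) ∧
    ∀ x : ℝ, ∑ k ∈ s, a k * (e (k.1 * x) * g (x - (-k.2))) +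
      ∑ k ∈ t, b k * (e ((k.1 + z.2) * x) * g (x - (z.1 - k.2))) = 0 := by
  obtain ⟨δ, hδ, hS⟩ := exists_S_re_pos
  obtain ⟨M, hM, hMz⟩ : ∃ M : ℕ, 0 < M ∧ ‖((√2 / M, √3 / M) : Plane)‖ < δ := by
    obtain ⟨N, hN⟩ := exists_nat_gt (2 / δ)
    refine ⟨N + 1, Nat.succ_pos _, ?_⟩
    have hN1 : (0 : ℝ) < ((N + 1 : ℕ) : ℝ) := by exact_mod_cast Nat.succ_pos _
    have h2 : 2 / ((N + 1 : ℕ) : ℝ) < δ := by
      rw [div_lt_iff₀ hN1]
      rw [div_lt_iff₀ hδ] at hN
      push_cast
      nlinarith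
    have hs2 : √2 ≤ 2 := by
      rw [Real.sqrt_le_left (by norm_num)]; norm_num
    have hs3 : √3 ≤ 2 := by
      rw [Real.sqrt_le_left (by norm_num)]; norm_num
    rw [Prod.norm_def]
    refine max_lt ?_ ?_
    · rw [Real.norm_of_nonneg (by positivity)]
      exact lt_of_le_of_lt (div_le_div_of_nonneg_right hs2 hN1.le) h2
    · rw [Real.norm_of_nonneg (by positivity)]
      exact lt_of_le_of_lt (div_le_div_of_nonneg_right hs3 hN1.le) h2
  obtain ⟨G, c, hGc, hGq, hG0, hG⟩ := exists_section hM (hS _ hMz)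
  set z : Plane := (√2 / M, √3 / M) with hz
  obtain ⟨A, hA⟩ := exists_expansion (P0_mem z)
  obtain ⟨B, hB⟩ := exists_expansion P1_mem
  refine ⟨win G, z, A.support, B.support, A, fun k => -Complex.exp c * B k * e (z.2 * k.2),
    continuous_win hGc, memLp_win hGc hGq, win_ne_zero hGc hGq hG0, fun k hk => ?_, ?_,
    fun x => ?_⟩
  · have h1 : Irrational (√2 / M) := irrational_sqrt_two.div_natCast hM.ne'
    exact h1.ne_int k hk
  · by_contra h
    have h1 : B.support = ∅ := by
      rw [Finset.eq_empty_iff_forall_notMem]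
      intro k hk
      refine h ⟨k, hk, ?_⟩
      exact mul_ne_zero (mul_ne_zero (neg_ne_zero.2 (Complex.exp_ne_zero _))
        (Finsupp.mem_support_iff.1 hk)) (e_ne_zero _)
    have h2 := hB (0, 0)
    rw [h1, P1_zero, Finset.sum_empty] at h2
    exact one_ne_zero h2
  · have h1 := integral_trig hGc hGq hA x
    have h2 := integral_trig (continuous_shift hGc z) (hGq.shift z) hB x
    have h3 : ∫ ξ in (0 : ℝ)..1, P0 z (x, ξ) * G (x, ξ) =
        Complex.exp c * ∫ ξ in (0 : ℝ)..1, P1 (x, ξ) * shift z G (x, ξ) := by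
      rw [← intervalIntegral.integral_const_mul]
      refine intervalIntegral.integral_congr fun ξ _ => ?_
      simp only [hG]
      ring
    rw [h1, h2, Finset.mul_sum] at h3
    have h4 : ∑ k ∈ A.support, A k * (e (k.1 * x) * win G (x - (-k.2))) =
        ∑ k ∈ A.support, A k * (e (k.1 * x) * win G (x + k.2)) := by
      simp only [sub_neg_eq_add]
    rw [h4, h3, ← Finset.sum_add_distrib]
    refine Finset.sum_eq_zero fun k _ => ?_
    rw [win_shift hGq]
    have h5 : e (z.2 * (x + k.2)) = e (z.2 * x) * e (z.2 * k.2) := by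
      rw [← e_add]; congr 1; ring
    have h6 : e ((k.1 + z.2) * x) = e (k.1 * x) * e (z.2 * x) := by
      rw [← e_add]; congr 1; ring
    have h7 : x - (z.1 - k.2) = x + k.2 - z.1 := by ring
    rw [h5, h6, h7]
    ring

end HRTCounter
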