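import Mathlib

/-!
# Small divisors for the vector `(√2, √3) / M`
-/

namespace HRTCounter

theorem two_mul_sq_ne {a b : ℤ} (h : a ^ 2 = 2 * b ^ 2) : b = 0 := by
  by_contra hb
  have hb' : (b : ℝ) ≠ 0 := by exact_mod_cast hb
  have h1 : ((a : ℝ) / b) ^ 2 = 2 := by
    rw [div_pow, div_eq_iff (by positivity)]
    exact_mod_cast h
  have h2 : √2 = |(a : ℝ) / b| := by
    rw [← h1, Real.sqrt_sq_eq_abs]
  refine irrational_sqrt_two ⟨|(a : ℚ) / b|, ?_⟩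
  rw [h2]
  push_cast
  rfl

theorem three_mul_sq_ne {a b : ℤ} (h : a ^ 2 = 3 * b ^ 2) : b = 0 := by
  by_contra hb
  have hb' : (b : ℝ) ≠ 0 := by exact_mod_cast hb
  have h1 : ((a : ℝ) / b) ^ 2 = 3 := by
    rw [div_pow, div_eq_iff (by positivity)]
    exact_mod_cast h
  have h2 : √3 = |(a : ℝ) / b| := by
    rw [← h1, Real.sqrt_sq_eq_abs]
  refine (Nat.Prime.irrational_sqrt (p := 3) (by norm_num)) ⟨|(a : ℚ) / b|, ?_⟩
  push_cast
  rw [h2]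

theorem six_mul_sq_ne {a b : ℤ} (h : a ^ 2 = 6 * b ^ 2) : b = 0 := by
  by_contra hb
  have h1 : emultiplicity (2 : ℤ) (a ^ 2) = emultiplicity (2 : ℤ) (6 * b ^ 2) := by rw [h]
  have hp : Prime (2 : ℤ) := Int.prime_two
  have ha : a ≠ 0 := by
    rintro rfl
    apply hb
    have : b ^ 2 = 0 := by nlinarith [sq_nonneg b]
    exact pow_eq_zero_iff (two_ne_zero) |>.1 this
  obtain ⟨m, hm⟩ : ∃ m : ℕ, emultiplicity (2 : ℤ) a = m :=
    ⟨_, (Int.finiteMultiplicity_iff.2 ⟨by norm_num, ha⟩).emultiplicity_eq_multiplicity⟩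
  obtain ⟨k, hk⟩ : ∃ k : ℕ, emultiplicity (2 : ℤ) b = k :=
    ⟨_, (Int.finiteMultiplicity_iff.2 ⟨by norm_num, hb⟩).emultiplicity_eq_multiplicity⟩
  rw [emultiplicity_pow hp, emultiplicity_mul hp, emultiplicity_pow hp, hm, hk] at h1
  have h6 : emultiplicity (2 : ℤ) 6 = 1 := by
    rw [show (1 : ℕ∞) = ((1 : ℕ) : ℕ∞) by rfl, emultiplicity_eq_coe]
    constructor <;> norm_num
  rw [h6] at h1
  norm_cast at h1
  omega

theorem norm_form_ne {a b c : ℤ} (h : ¬ (b = 0 ∧ c = 0)) :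
    (a ^ 2 + 2 * b ^ 2 - 3 * c ^ 2) ^ 2 - 8 * a ^ 2 * b ^ 2 ≠ 0 := by
  intro h0
  have h1 : (a ^ 2 + 2 * b ^ 2 - 3 * c ^ 2) ^ 2 = 2 * (2 * a * b) ^ 2 := by
    linear_combination h0
  have h2 := two_mul_sq_ne h1
  have h3 : a * b = 0 := by
    have : 2 * (a * b) = 0 := by rw [← h2]; ring
    omega
  rw [h2] at h1
  have h4 : a ^ 2 + 2 * b ^ 2 - 3 * c ^ 2 = 0 := by
    have : (a ^ 2 + 2 * b ^ 2 - 3 * c ^ 2) ^ 2 = 0 := by rw [h1]; ring
    exact pow_eq_zero_iff (two_ne_zero) |>.1 this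
  rcases mul_eq_zero.1 h3 with ha | hb
  · subst ha
    have h5 : (2 * b) ^ 2 = 6 * c ^ 2 := by linear_combination 2 * h4
    have hc := six_mul_sq_ne h5
    subst hc
    refine h ⟨?_, rfl⟩
    have : b ^ 2 = 0 := by nlinarith [sq_nonneg b]
    exact pow_eq_zero_iff (two_ne_zero) |>.1 this
  · subst hb
    have h5 : a ^ 2 = 3 * c ^ 2 := by linear_combination h4
    exact h ⟨rfl, three_mul_sq_ne h5⟩

theorem abs_linear_form_ge {a b c : ℤ} {B : ℝ} (hB1 : 1 ≤ B) (hb : |(b : ℝ)| ≤ B)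
    (hc : |(c : ℝ)| ≤ B) (h : ¬ (b = 0 ∧ c = 0)) :
    1 / (512 * B ^ 3) ≤ |(a : ℝ) + b * √2 + c * √3| := by
  have hB0 : 0 < B := by linarith
  have s2 : √2 ^ 2 = 2 := Real.sq_sqrt (by norm_num)
  have s3 : √3 ^ 2 = 3 := Real.sq_sqrt (by norm_num)
  have s2l : √2 ≤ 3 / 2 := by
    rw [Real.sqrt_le_left (by norm_num)]; norm_num
  have s3l : √3 ≤ 7 / 4 := by
    rw [Real.sqrt_le_left (by norm_num)]; norm_num
  have s2p : 0 ≤ √2 := Real.sqrt_nonneg _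
  have s3p : 0 ≤ √3 := Real.sqrt_nonneg _
  set L := (a : ℝ) + b * √2 + c * √3 with hL
  set L1 := (a : ℝ) + b * √2 - c * √3 with hL1
  set L2 := (a : ℝ) - b * √2 + c * √3 with hL2
  set L3 := (a : ℝ) - b * √2 - c * √3 with hL3
  have hprod : L * (L1 * L2 * L3) =
      (((a ^ 2 + 2 * b ^ 2 - 3 * c ^ 2) ^ 2 - 8 * a ^ 2 * b ^ 2 : ℤ) : ℝ) := by
    push_cast
    have e1 : L * L1 = a ^ 2 + 2 * b ^ 2 - 3 * c ^ 2 + 2 * a * b * √2 := by
      rw [hL, hL1]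
      linear_combination (b : ℝ) ^ 2 * s2 - (c : ℝ) ^ 2 * s3
    have e2 : L2 * L3 = a ^ 2 + 2 * b ^ 2 - 3 * c ^ 2 - 2 * a * b * √2 := by
      rw [hL2, hL3]
      linear_combination (b : ℝ) ^ 2 * s2 - (c : ℝ) ^ 2 * s3
    calc L * (L1 * L2 * L3) = (L * L1) * (L2 * L3) := by ring
      _ = _ := by
        rw [e1, e2]
        linear_combination (-4 * (a : ℝ) ^ 2 * b ^ 2) * s2
  have hge : 1 ≤ |L * (L1 * L2 * L3)| := by
    rw [hprod, ← Int.cast_abs]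
    exact_mod_cast Int.one_le_abs (norm_form_ne h)
  have hden : 0 < 512 * B ^ 3 := by positivity
  by_cases hL' : 1 ≤ |L|
  · refine le_trans ?_ hL'
    rw [div_le_one hden]
    have : 1 ≤ B ^ 3 := one_le_pow₀ hB1
    linarith
  · push Not at hL'
    have hbs : |(b : ℝ) * √2| ≤ 3 / 2 * B := by
      rw [abs_mul, abs_of_nonneg s2p]
      nlinarith [abs_nonneg (b : ℝ)]
    have hcs : |(c : ℝ) * √3| ≤ 7 / 4 * B := by
      rw [abs_mul, abs_of_nonneg s3p]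
      nlinarith [abs_nonneg (c : ℝ)]
    rw [abs_lt] at hL'
    rw [abs_le] at hbs hcs
    have hL1' : |L1| ≤ 8 * B := by
      rw [abs_le]; constructor <;> linarith [hL'.1, hL'.2, hbs.1, hbs.2, hcs.1, hcs.2]
    have hL2' : |L2| ≤ 8 * B := by
      rw [abs_le]; constructor <;> linarith [hL'.1, hL'.2, hbs.1, hbs.2, hcs.1, hcs.2]
    have hL3' : |L3| ≤ 8 * B := by
      rw [abs_le]; constructor <;> linarith [hL'.1, hL'.2, hbs.1, hbs.2, hcs.1, hcs.2]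
    rw [div_le_iff₀ hden]
    refine hge.trans ?_
    rw [abs_mul]
    refine mul_le_mul_of_nonneg_left ?_ (abs_nonneg _)
    rw [abs_mul, abs_mul]
    calc |L1| * |L2| * |L3| ≤ (8 * B) * (8 * B) * (8 * B) := by gcongr
      _ = 512 * B ^ 3 := by ring

end HRTCounter
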