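import Pool.Agent.Work.MP_505f06_an.Theta
import Pool.Agent.Work.MP_505f06_an.Diophantine

/-!
# Fourier coefficients of smooth periodic functions of two variables
-/

open Filter Topology MeasureTheory UnitAddTorus

namespace HRTCounter

/-- The measure on the circle has total mass one. -/
noncomputable local instance : MeasureSpace UnitAddCircle := ⟨AddCircle.haarAddCircle⟩

local instance : Measure.IsAddHaarMeasure (volume : Measure UnitAddCircle) :=
  inferInstanceAs (Measure.IsAddHaarMeasure AddCircle.haarAddCircle)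

local instance : IsProbabilityMeasure (volume : Measure UnitAddCircle) :=
  inferInstanceAs (IsProbabilityMeasure AddCircle.haarAddCircle)

/-- The two-dimensional torus. -/
abbrev T2 : Type := UnitAddTorus (Fin 2)

/-- The projection of the plane onto the torus. -/
noncomputable def proj (v : Fin 2 → ℝ) : T2 := Pi.map (fun _ (t : ℝ) => (t : UnitAddCircle)) v

theorem isOpenQuotientMap_proj : IsOpenQuotientMap proj :=
  IsOpenQuotientMap.piMap fun _ => QuotientAddGroup.isOpenQuotientMap_mk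

theorem proj_add (v w : Fin 2 → ℝ) : proj (v + w) = proj v + proj w := by
  funext i
  simp [proj]

/-- Periodic functions on the plane. -/
def Per (f : Plane → ℂ) : Prop :=
  (∀ x ξ : ℝ, f (x + 1, ξ) = f (x, ξ)) ∧ ∀ x ξ : ℝ, f (x, ξ + 1) = f (x, ξ)

theorem Per.add_int {f : Plane → ℂ} (h : Per f) (x ξ : ℝ) (m n : ℤ) :
    f (x + m, ξ + n) = f (x, ξ) := by
  have h1 : Function.Periodic (fun x => f (x, ξ + n)) 1 := fun x => h.1 x _
  have h2 : Function.Periodic (fun ξ => f (x, ξ)) 1 := fun ξ => h.2 x ξ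
  have h3 := h1.sub_int_mul_eq (-m) (x := x)
  have h4 := h2.sub_int_mul_eq (-n) (x := ξ)
  simp only [mul_one, Int.cast_neg, sub_neg_eq_add] at h3 h4
  rw [h3, h4]

theorem exists_lift {f : Plane → ℂ} (hf : Continuous f) (hp : Per f) :
    ∃ F : C(T2, ℂ), ∀ v, F (proj v) = f (v 0, v 1) := by
  have hsurj := isOpenQuotientMap_proj.surjective
  choose sec hsec using hsurj
  have hwd : ∀ v w : Fin 2 → ℝ, proj v = proj w → f (v 0, v 1) = f (w 0, w 1) := by
    intro v w h
    have h' : ∀ i, ∃ n : ℤ, v i = w i + n := by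
      intro i
      have h1 : ((v i : ℝ) : UnitAddCircle) = (w i : ℝ) := congrFun h i
      have h2 : (((v i - w i : ℝ)) : UnitAddCircle) = 0 := by
        rw [AddCircle.coe_sub, h1, sub_self]
      obtain ⟨n, hn⟩ := (AddCircle.coe_eq_zero_iff (p := (1 : ℝ))).1 h2
      refine ⟨n, ?_⟩
      simp only [zsmul_eq_mul, mul_one] at hn
      linarith
    obtain ⟨m, hm⟩ := h' 0
    obtain ⟨n, hn⟩ := h' 1
    rw [hm, hn, hp.add_int]
  refine ⟨⟨fun t => f (sec t 0, sec t 1), ?_⟩, fun v => hwd _ _ (hsec _)⟩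
  rw [← isOpenQuotientMap_proj.continuous_comp_iff]
  have : ((fun t => f (sec t 0, sec t 1)) ∘ proj) = fun v : Fin 2 → ℝ => f (v 0, v 1) := by
    funext v
    exact hwd _ _ (hsec _)
  rw [this]
  fun_prop

theorem mFourier_proj (n : Fin 2 → ℤ) (v : Fin 2 → ℝ) :
    mFourier n (proj v) = e (n 0 * v 0 + n 1 * v 1) := by
  have h : ∀ i, fourier (n i) (proj v i) = e (n i * v i) := by
    intro i
    have : (proj v i : UnitAddCircle) = ((v i : ℝ) : UnitAddCircle) := rfl
    rw [this, fourier_coe_apply, e]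
    congr 1
    push_cast
    ring
  simp only [mFourier, ContinuousMap.coe_mk, Fin.prod_univ_two, h, e_add]

theorem mFourier_add_apply (n : Fin 2 → ℤ) (s t : T2) :
    mFourier n (s + t) = mFourier n s * mFourier n t := by
  simp only [mFourier, ContinuousMap.coe_mk, Pi.add_apply, fourier_apply, smul_add,
    AddCircle.toCircle_add, Circle.coe_mul, Finset.prod_mul_distrib]

/-- The difference operator. -/
def dif {α : Type*} [Add α] (y : α) (f : α → ℂ) : α → ℂ := fun p => f (p + y) - f p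

theorem dif_iterate_lift (w : Fin 2 → ℝ) (k : ℕ) : ∀ (f : Plane → ℂ) (F : T2 → ℂ),
    (∀ v, F (proj v) = f (v 0, v 1)) →
    ∀ v, ((dif (proj w))^[k] F) (proj v) = ((dif ((w 0, w 1) : Plane))^[k] f) (v 0, v 1) := by
  induction k with
  | zero => intro f F h v; exact h v
  | succ k ih =>
    intro f F h v
    rw [Function.iterate_succ_apply, Function.iterate_succ_apply]
    refine ih _ _ (fun v => ?_) v
    simp only [dif]
    rw [← proj_add, h, h]
    rfl

theorem continuous_dif {α : Type*} [Add α] [TopologicalSpace α] [ContinuousAdd α] {y : α}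
    {f : α → ℂ} (hf : Continuous f) : Continuous (dif y f) :=
  (hf.comp (continuous_add_const y)).sub hf

theorem integrable_of_continuous {F : T2 → ℂ} (hF : Continuous F) : Integrable F volume :=
  hF.integrable_of_hasCompactSupport (HasCompactSupport.of_compactSpace _)

theorem mFourierCoeff_dif (s : T2) {F : T2 → ℂ} (hF : Continuous F) (n : Fin 2 → ℤ) :
    mFourierCoeff (dif s F) n = (mFourier n s - 1) * mFourierCoeff F n := by
  have h0 : ∀ t, mFourier (-n) t = mFourier n s * mFourier (-n) (t + s) := by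
    intro t
    rw [mFourier_add_apply, mul_left_comm]
    have : mFourier n s * mFourier (-n) s = 1 := by
      rw [← mFourier_add, add_neg_cancel, mFourier_zero]; rfl
    rw [this, mul_one]
  have hc : Continuous fun t => mFourier (-n) t • F t := by
    exact ((mFourier (-n)).continuous).smul hF
  have hc' : Continuous fun t => mFourier (-n) t • F (t + s) := by
    exact ((mFourier (-n)).continuous).smul (hF.comp (continuous_add_const s))
  have h1 : mFourierCoeff (dif s F) n =
      (∫ t, mFourier (-n) t • F (t + s)) - ∫ t, mFourier (-n) t • F t := by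
    rw [← integral_sub (integrable_of_continuous hc') (integrable_of_continuous hc)]
    refine integral_congr_ae (Eventually.of_forall fun t => ?_)
    simp only [dif, smul_sub]
  have h2 : (∫ t, mFourier (-n) t • F (t + s)) = mFourier n s * ∫ t, mFourier (-n) t • F t := by
    rw [← integral_const_mul]
    rw [← integral_add_right_eq_self (fun t => mFourier n s * (mFourier (-n) t • F t)) s]
    refine integral_congr_ae (Eventually.of_forall fun t => ?_)
    simp only [smul_eq_mul]
    rw [h0 t]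
    ring
  rw [h1, h2, mFourierCoeff]
  ring

theorem mFourierCoeff_dif_iterate (s : T2) (n : Fin 2 → ℤ) (k : ℕ) : ∀ {F : T2 → ℂ},
    Continuous F →
    mFourierCoeff ((dif s)^[k] F) n = (mFourier n s - 1) ^ k * mFourierCoeff F n := by
  induction k with
  | zero => intro F _; simp
  | succ k ih =>
    intro F hF
    rw [Function.iterate_succ_apply, ih (continuous_dif hF), mFourierCoeff_dif s hF, pow_succ]
    ring

theorem norm_mFourierCoeff_le {F : T2 → ℂ} {C : ℝ} (hC : ∀ t, ‖F t‖ ≤ C) (n : Fin 2 → ℤ) :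
    ‖mFourierCoeff F n‖ ≤ C := by
  have h := norm_integral_le_of_norm_le_const (μ := (volume : Measure T2))
    (f := fun t => mFourier (-n) t • F t) (C := C) (Eventually.of_forall fun t => ?_)
  · simpa [mFourierCoeff] using h
  · rw [norm_smul]
    have h1 : ‖mFourier (-n) t‖ ≤ 1 :=
      ((mFourier (-n)).norm_coe_le_norm t).trans_eq mFourier_norm
    calc ‖mFourier (-n) t‖ * ‖F t‖ ≤ 1 * C :=
          mul_le_mul h1 (hC t) (norm_nonneg _) zero_le_one
      _ = C := one_mul C

theorem Per.bounded {f : Plane → ℂ} (hf : Continuous f) (hp : Per f) :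
    ∃ C, 0 ≤ C ∧ ∀ p, ‖f p‖ ≤ C := by
  obtain ⟨F, hF⟩ := exists_lift hf hp
  refine ⟨‖F‖, norm_nonneg _, fun p => ?_⟩
  have := hF ![p.1, p.2]
  simp only [Matrix.cons_val_zero, Matrix.cons_val_one] at this
  rw [show p = (p.1, p.2) from rfl, ← this]
  exact F.norm_coe_le_norm _

theorem Per.of_fderiv {f : Plane → ℂ} (hp : Per f) (y : Plane) :
    Per (fun p => fderiv ℝ f p y) := by
  constructor
  · intro x ξ
    have h : (fun p : Plane => f (p + (1, 0))) = f := by
      funext p
      obtain ⟨a, b⟩ := p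
      simp [hp.1 a b]
    have h2 : fderiv ℝ f ((x, ξ) + (1, 0)) = fderiv ℝ f (x, ξ) := by
      rw [← fderiv_comp_add_right (f := f) ((1, 0) : Plane), h]
    have h3 : ((x + 1, ξ) : Plane) = (x, ξ) + (1, 0) := by simp
    show fderiv ℝ f (x + 1, ξ) y = fderiv ℝ f (x, ξ) y
    rw [h3, h2]
  · intro x ξ
    have h : (fun p : Plane => f (p + (0, 1))) = f := by
      funext p
      obtain ⟨a, b⟩ := p
      simp [hp.2 a b]
    have h2 : fderiv ℝ f ((x, ξ) + (0, 1)) = fderiv ℝ f (x, ξ) := by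
      rw [← fderiv_comp_add_right (f := f) ((0, 1) : Plane), h]
    have h3 : ((x, ξ + 1) : Plane) = (x, ξ) + (0, 1) := by simp
    show fderiv ℝ f (x, ξ + 1) y = fderiv ℝ f (x, ξ) y
    rw [h3, h2]

theorem dif_iterate_differentiable (s : Plane) (k : ℕ) : ∀ {f : Plane → ℂ},
    Differentiable ℝ f → Differentiable ℝ ((dif s)^[k] f) ∧
      ∀ p y, fderiv ℝ ((dif s)^[k] f) p y = ((dif s)^[k] (fun q => fderiv ℝ f q y)) p := by
  induction k with
  | zero => intro f hf; exact ⟨hf, fun p y => rfl⟩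
  | succ k ih =>
    intro f hf
    have h1 : Differentiable ℝ (dif s f) :=
      (hf.comp (differentiable_id.add_const s)).sub hf
    have h2 : ∀ y, (fun q => fderiv ℝ (dif s f) q y) = dif s (fun q => fderiv ℝ f q y) := by
      intro y
      funext q
      have h3 : DifferentiableAt ℝ (fun p => f (p + s)) q :=
        (hf.comp (differentiable_id.add_const s)) q
      have h4 : fderiv ℝ (dif s f) q = fderiv ℝ (fun p => f (p + s)) q - fderiv ℝ f q := by
        exact fderiv_fun_sub h3 (hf q)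
      rw [h4, fderiv_comp_add_right]
      rfl
    obtain ⟨h5, h6⟩ := ih h1
    refine ⟨h5, fun p y => ?_⟩
    rw [Function.iterate_succ_apply, Function.iterate_succ_apply, h6 p y, h2 y]

theorem exists_dif_bound (y : Plane) (k : ℕ) : ∀ {f : Plane → ℂ}, ContDiff ℝ k f → Per f →
    ∃ C, 0 ≤ C ∧ ∀ (h : ℝ) (p : Plane), ‖((dif (h • y))^[k] f) p‖ ≤ C * |h| ^ k := by
  induction k with
  | zero =>
    intro f hf hp
    obtain ⟨C, hC, h⟩ := hp.bounded hf.continuous
    exact ⟨C, hC, fun _ p => by simpa using h p⟩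
  | succ k ih =>
    intro f hf hp
    have hf' : ContDiff ℝ ((k : WithTop ℕ∞) + 1) f := by exact_mod_cast hf
    have hf'' := hf'
    rw [contDiff_succ_iff_fderiv_apply] at hf''
    obtain ⟨C, hC, hb⟩ := ih (hf''.2.2 y) (hp.of_fderiv y)
    refine ⟨C, hC, fun h p => ?_⟩
    rw [Function.iterate_succ_apply']
    obtain ⟨hd, hd'⟩ := dif_iterate_differentiable (h • y) k hf''.1
    set g := (dif (h • y))^[k] f with hg
    have h1 : ∀ t ∈ Set.Icc (0 : ℝ) 1, HasDerivWithinAt (fun t : ℝ => g (p + t • (h • y)))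
        (h • fderiv ℝ g (p + t • (h • y)) y) (Set.Icc 0 1) t := by
      intro t _
      have h2 : HasDerivAt (fun t : ℝ => p + t • (h • y)) (h • y) t := by
        have := ((hasDerivAt_id t).smul_const (h • y)).const_add p
        simpa using! this
      have h3 := (hd (p + t • (h • y))).hasFDerivAt.comp_hasDerivAt t h2
      rw [map_smul] at h3
      exact h3.hasDerivWithinAt
    have h4 := norm_image_sub_le_of_norm_deriv_le_segment_01' (f := fun t : ℝ =>
      g (p + t • (h • y))) (C := C * |h| ^ (k + 1)) h1 (fun t _ => by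
        rw [norm_smul, hd', Real.norm_eq_abs]
        calc |h| * ‖((dif (h • y))^[k] (fun q => fderiv ℝ f q y)) (p + t • h • y)‖
            ≤ |h| * (C * |h| ^ k) := mul_le_mul_of_nonneg_left (hb h _) (abs_nonneg _)
          _ = C * |h| ^ (k + 1) := by ring)
    simpa [dif] using h4

/-- Decay of the Fourier coefficients. -/
theorem exists_coeff_bound {f : Plane → ℂ} (hf : ContDiff ℝ 6 f) (hp : Per f) {F : C(T2, ℂ)}
    (hF : ∀ v, F (proj v) = f (v 0, v 1)) :
    ∃ C, 0 ≤ C ∧ ∀ n : Fin 2 → ℤ, ‖mFourierCoeff F n‖ * ‖n‖ ^ 6 ≤ C := by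
  obtain ⟨C0, hC0, h0⟩ := exists_dif_bound (1, 0) 6 (by exact_mod_cast hf) hp
  obtain ⟨C1, hC1, h1⟩ := exists_dif_bound (0, 1) 6 (by exact_mod_cast hf) hp
  have key : ∀ (n : Fin 2 → ℤ) (w : Fin 2 → ℝ) (D : ℝ), mFourier n (proj w) = -1 →
      (∀ p, ‖((dif ((w 0, w 1) : Plane))^[6] f) p‖ ≤ D) → ‖mFourierCoeff F n‖ ≤ D / 64 := by
    intro n w D hw hD
    have h2 := mFourierCoeff_dif_iterate (proj w) n 6 F.continuous
    rw [hw] at h2
    have h3 : ‖mFourierCoeff ((dif (proj w))^[6] F) n‖ ≤ D := by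
      refine norm_mFourierCoeff_le (fun t => ?_) n
      obtain ⟨v, rfl⟩ := isOpenQuotientMap_proj.surjective t
      rw [dif_iterate_lift w 6 f F hF v]
      exact hD _
    rw [h2, norm_mul] at h3
    have h4 : ‖((-1 : ℂ) - 1) ^ 6‖ = 64 := by norm_num
    rw [h4] at h3
    linarith
  have hhalf : e (1 / 2) = -1 := by
    rw [e, show 2 * (Real.pi : ℂ) * Complex.I * ((1 / 2 : ℝ) : ℂ) = Real.pi * Complex.I by
      push_cast; ring, Complex.exp_pi_mul_I]
  refine ⟨max C0 C1, hC0.trans (le_max_left _ _), fun n => ?_⟩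
  by_cases hn : n = 0
  · rw [hn, norm_zero]
    have := hC0.trans (le_max_left C0 C1)
    simpa using this
  have hnorm := EisensteinSeries.norm_eq_max_natAbs n
  have hpos : 0 < ‖n‖ := norm_pos_iff.2 hn
  rcases le_total (n 1).natAbs (n 0).natAbs with hle | hle
  · have e1 : ‖n‖ = |((n 0 : ℤ) : ℝ)| := by
      rw [hnorm, max_eq_left (by exact_mod_cast hle), Nat.cast_natAbs, Int.cast_abs]
    have hn0 : ((n 0 : ℤ) : ℝ) ≠ 0 := by
      intro h
      rw [h, abs_zero] at e1
      exact hpos.ne' e1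
    have h2 := key n ![1 / (2 * (n 0 : ℝ)), 0] (C0 * |1 / (2 * (n 0 : ℝ))| ^ 6) (by
        rw [mFourier_proj]
        simp only [Matrix.cons_val_zero, Matrix.cons_val_one, mul_zero, add_zero]
        rw [show ((n 0 : ℤ) : ℝ) * (1 / (2 * (n 0 : ℝ))) = 1 / 2 by field_simp, hhalf]) (by
        intro p
        have := h0 (1 / (2 * (n 0 : ℝ))) p
        simpa using this)
    rw [e1]
    have h5 : |1 / (2 * (n 0 : ℝ))| ^ 6 * |((n 0 : ℤ) : ℝ)| ^ 6 = 1 / 64 := by
      rw [← mul_pow, ← abs_mul, show 1 / (2 * (n 0 : ℝ)) * (n 0 : ℝ) = 1 / 2 by field_simp]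
      rw [abs_of_pos (by norm_num)]
      norm_num
    have h6 : 0 ≤ |((n 0 : ℤ) : ℝ)| ^ 6 := by positivity
    calc ‖mFourierCoeff F n‖ * |((n 0 : ℤ) : ℝ)| ^ 6
        ≤ (C0 * |1 / (2 * (n 0 : ℝ))| ^ 6 / 64) * |((n 0 : ℤ) : ℝ)| ^ 6 :=
          mul_le_mul_of_nonneg_right h2 h6
      _ = C0 / 64 * (|1 / (2 * (n 0 : ℝ))| ^ 6 * |((n 0 : ℤ) : ℝ)| ^ 6) := by ring
      _ ≤ max C0 C1 := by rw [h5]; linarith [le_max_left C0 C1]
  · have e1 : ‖n‖ = |((n 1 : ℤ) : ℝ)| := by
      rw [hnorm, max_eq_right (by exact_mod_cast hle), Nat.cast_natAbs, Int.cast_abs]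
    have hn0 : ((n 1 : ℤ) : ℝ) ≠ 0 := by
      intro h
      rw [h, abs_zero] at e1
      exact hpos.ne' e1
    have h2 := key n ![0, 1 / (2 * (n 1 : ℝ))] (C1 * |1 / (2 * (n 1 : ℝ))| ^ 6) (by
        rw [mFourier_proj]
        simp only [Matrix.cons_val_zero, Matrix.cons_val_one, mul_zero, zero_add]
        rw [show ((n 1 : ℤ) : ℝ) * (1 / (2 * (n 1 : ℝ))) = 1 / 2 by field_simp, hhalf]) (by
        intro p
        have := h1 (1 / (2 * (n 1 : ℝ))) p
        simpa using this)
    rw [e1]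
    have h5 : |1 / (2 * (n 1 : ℝ))| ^ 6 * |((n 1 : ℤ) : ℝ)| ^ 6 = 1 / 64 := by
      rw [← mul_pow, ← abs_mul, show 1 / (2 * (n 1 : ℝ)) * (n 1 : ℝ) = 1 / 2 by field_simp]
      rw [abs_of_pos (by norm_num)]
      norm_num
    have h6 : 0 ≤ |((n 1 : ℤ) : ℝ)| ^ 6 := by positivity
    calc ‖mFourierCoeff F n‖ * |((n 1 : ℤ) : ℝ)| ^ 6
        ≤ (C1 * |1 / (2 * (n 1 : ℝ))| ^ 6 / 64) * |((n 1 : ℤ) : ℝ)| ^ 6 :=
          mul_le_mul_of_nonneg_right h2 h6
      _ = C1 / 64 * (|1 / (2 * (n 1 : ℝ))| ^ 6 * |((n 1 : ℤ) : ℝ)| ^ 6) := by ring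
      _ ≤ max C0 C1 := by rw [h5]; linarith [le_max_right C0 C1]

end HRTCounter
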