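import Pool.Agent.Work.MP_505f06_an.Theta

/-!
# The ratio of the two sides of the equation
-/

open Filter Topology Asymptotics

namespace HRTCounter

/-- The second trigonometric polynomial. -/
noncomputable def P0 (z p : Plane) : ℂ :=
  uu (p.1 - z.1, 0) ^ 8 * P1 p + uu (p.1 - 1 / 2, 0) ^ 8 * P1 (p.1 - z.1, p.2 - z.2)

/-- The function `S` with `P0 θ = S P1 (π(z) θ)`. -/
noncomputable def S (z p : Plane) : ℂ :=
  e (-(z.2 * p.1)) * (kappa (p.1 - z.1, p.2 - z.2) * theta p +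
    kappa (p.1 - 1 / 2, -p.2) * theta (p.1 - 1 / 2 - z.1, -p.2 + z.2))

theorem contDiff_S (z : Plane) : ContDiff ℝ 6 (S z) := by
  unfold S
  refine (contDiff_e.comp ?_).mul (((contDiff_kappa.comp ?_).mul contDiff_theta).add
    ((contDiff_kappa.comp ?_).mul (contDiff_theta.comp ?_)))
  · exact (contDiff_const.mul contDiff_fst).neg
  · exact (contDiff_fst.sub contDiff_const).prodMk (contDiff_snd.sub contDiff_const)
  · exact (contDiff_fst.sub contDiff_const).prodMk contDiff_snd.neg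
  · exact ((contDiff_fst.sub contDiff_const).sub contDiff_const).prodMk
      (contDiff_snd.neg.add contDiff_const)

theorem continuous_S : Continuous fun q : Plane × Plane => S q.1 q.2 := by
  have h1 : Continuous theta := contDiff_theta.continuous
  have h2 : Continuous kappa := contDiff_kappa.continuous
  have h3 := continuous_e
  unfold S
  fun_prop

theorem S_add_one (z : Plane) (x ξ : ℝ) : S z (x + 1, ξ) = S z (x, ξ) := by
  simp only [S]
  rw [show x + 1 - z.1 = (x - z.1) + 1 by ring, kappa_add_one, theta_add_one,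
    show x + 1 - 1 / 2 = (x - 1 / 2) + 1 by ring, kappa_add_one,
    show x - 1 / 2 + 1 - z.1 = (x - 1 / 2 - z.1) + 1 by ring, theta_add_one]
  have h1 : e (-(z.2 * (x + 1))) = e (-(z.2 * x)) * e (-z.2) := by
    rw [← e_add]; congr 1; ring
  have h2 : e (-(ξ - z.2)) * e ξ * e (-z.2) = 1 := by
    rw [← e_add, ← e_add]; simp [e_zero]
  have h3 : e (- -ξ) * e (-ξ + z.2) * e (-z.2) = 1 := by
    rw [← e_add, ← e_add]; simp [e_zero]
  rw [h1]
  linear_combination e (-(z.2 * x)) * kappa (x - z.1, ξ - z.2) * theta (x, ξ) * h2 +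
    e (-(z.2 * x)) * kappa (x - 1 / 2, -ξ) * theta (x - 1 / 2 - z.1, -ξ + z.2) * h3

theorem S_add_one' (z : Plane) (x ξ : ℝ) : S z (x, ξ + 1) = S z (x, ξ) := by
  simp only [S]
  rw [show ξ + 1 - z.2 = (ξ - z.2) + 1 by ring, kappa_add_one', theta_add_one']
  have h1 : kappa (x - 1 / 2, -(ξ + 1)) = kappa (x - 1 / 2, -ξ) := by
    rw [← kappa_add_one' _ (-(ξ + 1))]; congr 2; ring
  have h2 : theta (x - 1 / 2 - z.1, -(ξ + 1) + z.2) = theta (x - 1 / 2 - z.1, -ξ + z.2) := by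
    rw [← theta_add_one' _ (-(ξ + 1) + z.2)]; congr 2; ring
  rw [h1, h2]

theorem P0_mul_theta (z p : Plane) : P0 z p * theta p =
    S z p * P1 p * (e (z.2 * p.1) * theta (p.1 - z.1, p.2 - z.2)) := by
  obtain ⟨x, ξ⟩ := p
  have h1 := theta_mul_theta x ξ
  have h2 := theta_mul_theta (x - z.1) (ξ - z.2)
  have h3 : kappa (x - z.1, ξ - z.2) * theta (x - z.1, ξ - z.2) = uu (x - z.1, 0) ^ 8 :=
    kappa_mul_theta _
  have h4 : kappa (x - 1 / 2, -ξ) * theta (x - 1 / 2, -ξ) = uu (x - 1 / 2, 0) ^ 8 :=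
    kappa_mul_theta _
  have h5 := e_neg_mul_self (z.2 * x)
  have h6 : theta (x - z.1 - 1 / 2, -(ξ - z.2)) = theta (x - 1 / 2 - z.1, -ξ + z.2) := by
    congr 2 <;> ring
  rw [h6] at h2
  simp only [P0, S]
  rw [← h1, ← h2, ← h3, ← h4]
  linear_combination (-(kappa (x - z.1, ξ - z.2) * theta (x, ξ) +
    kappa (x - 1 / 2, -ξ) * theta (x - 1 / 2 - z.1, -ξ + z.2)) * theta (x, ξ) *
    theta (x - 1 / 2, -ξ) * theta (x - z.1, ξ - z.2)) * h5

theorem S_zero_re_pos (p : Plane) : 0 < (S 0 p).re := by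
  obtain ⟨x, ξ⟩ := p
  have h1 : S 0 (x, ξ) = uu (x, 0) ^ 8 + uu (x - 1 / 2, 0) ^ 8 := by
    have h3 : kappa (x, ξ) * theta (x, ξ) = uu (x, 0) ^ 8 := kappa_mul_theta _
    have h4 : kappa (x - 1 / 2, -ξ) * theta (x - 1 / 2, -ξ) = uu (x - 1 / 2, 0) ^ 8 :=
      kappa_mul_theta _
    simp only [S, Prod.fst_zero, Prod.snd_zero, zero_mul, neg_zero, e_zero, one_mul, sub_zero,
      add_zero, h3, h4]
  have h2 : uu (x - 1 / 2, 0) = ((1 + Real.sin (2 * Real.pi * x) : ℝ) : ℂ) := by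
    simp only [uu]
    rw [show 2 * Real.pi * (x - 1 / 2) = 2 * Real.pi * x - Real.pi by ring, Real.sin_sub_pi]
    congr 1; ring
  rw [h1, h2]
  simp only [uu]
  rw [← Complex.ofReal_pow, ← Complex.ofReal_pow, ← Complex.ofReal_add, Complex.ofReal_re]
  set s := Real.sin (2 * Real.pi * x)
  have h3 : 0 ≤ (1 - s) ^ 8 := by positivity
  have h4 : 0 ≤ (1 + s) ^ 8 := by positivity
  rcases le_total 0 s with h | h
  · have : 1 ≤ (1 + s) ^ 8 := one_le_pow₀ (by linarith)
    linarith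
  · have : 1 ≤ (1 - s) ^ 8 := one_le_pow₀ (by linarith)
    linarith

theorem exists_S_re_pos : ∃ δ > 0, ∀ z : Plane, ‖z‖ < δ → ∀ p, 0 < (S z p).re := by
  have hK : IsCompact (Set.Icc (0 : ℝ) 1 ×ˢ Set.Icc (0 : ℝ) 1) := isCompact_Icc.prod isCompact_Icc
  have h1 : ∀ᶠ z in 𝓝 (0 : Plane), ∀ p ∈ Set.Icc (0 : ℝ) 1 ×ˢ Set.Icc (0 : ℝ) 1,
      0 < (S z p).re := by
    refine hK.eventually_forall_of_forall_eventually fun p _ => ?_
    have hc : Continuous fun q : Plane × Plane => (S q.1 q.2).re :=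
      Complex.continuous_re.comp continuous_S
    exact hc.continuousAt.eventually_const_lt (S_zero_re_pos p)
  obtain ⟨δ, hδ, h⟩ := Metric.eventually_nhds_iff.1 h1
  refine ⟨δ, hδ, fun z hz p => ?_⟩
  obtain ⟨x, ξ⟩ := p
  have hx : S z (x, ξ) = S z (Int.fract x, ξ) := by
    have hp : Function.Periodic (fun x => S z (x, ξ)) 1 := fun x => S_add_one z x ξ
    have := hp.sub_int_mul_eq ⌊x⌋ (x := x)
    simp only [mul_one] at this
    exact this.symm
  have hy : S z (Int.fract x, ξ) = S z (Int.fract x, Int.fract ξ) := by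
    have hp : Function.Periodic (fun ξ => S z (Int.fract x, ξ)) 1 :=
      fun ξ => S_add_one' z _ ξ
    have := hp.sub_int_mul_eq ⌊ξ⌋ (x := ξ)
    simp only [mul_one] at this
    exact this.symm
  rw [hx, hy]
  refine h (by simpa using hz) _ ⟨⟨Int.fract_nonneg _, (Int.fract_lt_one _).le⟩,
    ⟨Int.fract_nonneg _, (Int.fract_lt_one _).le⟩⟩

end HRTCounter
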