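import Mathlib

/-!
# Functions with controlled singularities on the zero set of a smooth function

If `w` is smooth off the zero set of `u`, and its derivatives grow at most like powers of `1 / u`,
then `u ^ a * w` is smooth when `a` is large.
-/

open Filter Topology Asymptotics

namespace HRTCounter

/-- The plane. -/
abbrev Plane : Type := ℝ × ℝ

/-- `w` is of class `C^r` off the zeros of `u` and its derivatives of order `j ≤ r` are locally
bounded by a multiple of `|u| ^ (-(m + j))`. -/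
def Tame (u : Plane → ℂ) : ℕ → ℕ → (Plane → ℂ) → Prop
  | 0, m, w => (∀ q, u q ≠ 0 → ContinuousAt w q) ∧
      ∀ p, ∃ C : ℝ, ∀ᶠ q in 𝓝 p, u q ≠ 0 → ‖w q‖ * ‖u q‖ ^ m ≤ C
  | (r + 1), m, w => ((∀ q, u q ≠ 0 → ContinuousAt w q) ∧
      ∀ p, ∃ C : ℝ, ∀ᶠ q in 𝓝 p, u q ≠ 0 → ‖w q‖ * ‖u q‖ ^ m ≤ C) ∧
      (∀ q, u q ≠ 0 → DifferentiableAt ℝ w q) ∧
      ∀ y, Tame u r (m + 1) (fun q => fderiv ℝ w q y)

variable {u : Plane → ℂ}

theorem Tame.base {r m : ℕ} {w : Plane → ℂ} (h : Tame u r m w) :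
    (∀ q, u q ≠ 0 → ContinuousAt w q) ∧
      ∀ p, ∃ C : ℝ, ∀ᶠ q in 𝓝 p, u q ≠ 0 → ‖w q‖ * ‖u q‖ ^ m ≤ C := by
  cases r with
  | zero => exact h
  | succ r => exact h.1

theorem Tame.pred {r : ℕ} : ∀ {m : ℕ} {w : Plane → ℂ}, Tame u (r + 1) m w → Tame u r m w := by
  induction r with
  | zero => intro m w h; exact h.1
  | succ r ih =>
    intro m w h
    exact ⟨h.1, h.2.1, fun y => ih (h.2.2 y)⟩

theorem Tame.congr {r : ℕ} (hu : Continuous u) : ∀ {m : ℕ} {w w' : Plane → ℂ},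
    Tame u r m w → (∀ q, u q ≠ 0 → w q = w' q) → Tame u r m w' := by
  have key : ∀ {w w' : Plane → ℂ}, (∀ q, u q ≠ 0 → w q = w' q) → ∀ q, u q ≠ 0 →
      w =ᶠ[𝓝 q] w' := by
    intro w w' h q hq
    have : ∀ᶠ x in 𝓝 q, u x ≠ 0 := hu.continuousAt.eventually_ne hq
    exact this.mono fun x hx => h x hx
  have key2 : ∀ {m : ℕ} {w w' : Plane → ℂ}, ((∀ q, u q ≠ 0 → ContinuousAt w q) ∧
      ∀ p, ∃ C : ℝ, ∀ᶠ q in 𝓝 p, u q ≠ 0 → ‖w q‖ * ‖u q‖ ^ m ≤ C) →
      (∀ q, u q ≠ 0 → w q = w' q) → ((∀ q, u q ≠ 0 → ContinuousAt w' q) ∧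
      ∀ p, ∃ C : ℝ, ∀ᶠ q in 𝓝 p, u q ≠ 0 → ‖w' q‖ * ‖u q‖ ^ m ≤ C) := by
    intro m w w' h h'
    refine ⟨fun q hq => (h.1 q hq).congr (key h' q hq), fun p => ?_⟩
    obtain ⟨C, hC⟩ := h.2 p
    exact ⟨C, hC.mono fun q hq hq' => by rw [← h' q hq']; exact hq hq'⟩
  induction r with
  | zero => intro m w w' h h'; exact key2 h h'
  | succ r ih =>
    intro m w w' h h'
    refine ⟨key2 h.1 h', fun q hq => (h.2.1 q hq).congr_of_eventuallyEq (key h' q hq).symm,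
      fun y => ih (h.2.2 y) fun q hq => ?_⟩
    rw [(key h' q hq).fderiv_eq]

theorem Tame.mono {r : ℕ} (hu : Continuous u) : ∀ {m m' : ℕ} {w : Plane → ℂ},
    Tame u r m w → m ≤ m' → Tame u r m' w := by
  have key : ∀ {m m' : ℕ} {w : Plane → ℂ}, ((∀ q, u q ≠ 0 → ContinuousAt w q) ∧
      ∀ p, ∃ C : ℝ, ∀ᶠ q in 𝓝 p, u q ≠ 0 → ‖w q‖ * ‖u q‖ ^ m ≤ C) → m ≤ m' →
      ((∀ q, u q ≠ 0 → ContinuousAt w q) ∧
      ∀ p, ∃ C : ℝ, ∀ᶠ q in 𝓝 p, u q ≠ 0 → ‖w q‖ * ‖u q‖ ^ m' ≤ C) := by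
    intro m m' w h hm
    refine ⟨h.1, fun p => ?_⟩
    obtain ⟨C, hC⟩ := h.2 p
    have hb : ∀ᶠ q in 𝓝 p, ‖u q‖ < ‖u p‖ + 1 :=
      (hu.norm.continuousAt).eventually_lt_const (lt_add_one _)
    refine ⟨|C| * (‖u p‖ + 1) ^ (m' - m), ?_⟩
    filter_upwards [hC, hb] with q hq hq2 hq3
    have e : ‖u q‖ ^ m' = ‖u q‖ ^ m * ‖u q‖ ^ (m' - m) := by
      rw [← pow_add]; congr 1; omega
    rw [e, ← mul_assoc]
    refine mul_le_mul ((hq hq3).trans (le_abs_self _)) ?_ (by positivity) (abs_nonneg _)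
    exact pow_le_pow_left₀ (norm_nonneg _) hq2.le _
  induction r with
  | zero => intro m m' w h hm; exact key h hm
  | succ r ih =>
    intro m m' w h hm
    exact ⟨key h.1 hm, h.2.1, fun y => ih (h.2.2 y) (by omega)⟩

theorem Tame.of_contDiff {r : ℕ} (hu : Continuous u) : ∀ {m : ℕ} {w : Plane → ℂ},
    ContDiff ℝ r w → Tame u r m w := by
  have key : ∀ {m : ℕ} {w : Plane → ℂ}, Continuous w → ((∀ q, u q ≠ 0 → ContinuousAt w q) ∧
      ∀ p, ∃ C : ℝ, ∀ᶠ q in 𝓝 p, u q ≠ 0 → ‖w q‖ * ‖u q‖ ^ m ≤ C) := by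
    intro m w h
    refine ⟨fun q _ => h.continuousAt, fun p => ⟨‖w p‖ * ‖u p‖ ^ m + 1, ?_⟩⟩
    have : Continuous fun q => ‖w q‖ * ‖u q‖ ^ m := h.norm.mul (hu.norm.pow m)
    filter_upwards [this.continuousAt.eventually_lt_const (lt_add_one _)] with q hq _
    exact hq.le
  induction r with
  | zero => intro m w h; exact key h.continuous
  | succ r ih =>
    intro m w h
    have h' : ContDiff ℝ ((r : WithTop ℕ∞) + 1) w := by exact_mod_cast h
    rw [contDiff_succ_iff_fderiv_apply] at h'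
    exact ⟨key h'.1.continuous, fun q _ => h'.1 q, fun y => ih (h'.2.2 y)⟩

theorem Tame.add {r : ℕ} (hu : Continuous u) : ∀ {m : ℕ} {w w' : Plane → ℂ},
    Tame u r m w → Tame u r m w' → Tame u r m (fun q => w q + w' q) := by
  have key : ∀ {m : ℕ} {w w' : Plane → ℂ}, ((∀ q, u q ≠ 0 → ContinuousAt w q) ∧
      ∀ p, ∃ C : ℝ, ∀ᶠ q in 𝓝 p, u q ≠ 0 → ‖w q‖ * ‖u q‖ ^ m ≤ C) →
      ((∀ q, u q ≠ 0 → ContinuousAt w' q) ∧
      ∀ p, ∃ C : ℝ, ∀ᶠ q in 𝓝 p, u q ≠ 0 → ‖w' q‖ * ‖u q‖ ^ m ≤ C) →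
      ((∀ q, u q ≠ 0 → ContinuousAt (fun q => w q + w' q) q) ∧
      ∀ p, ∃ C : ℝ, ∀ᶠ q in 𝓝 p, u q ≠ 0 → ‖w q + w' q‖ * ‖u q‖ ^ m ≤ C) := by
    intro m w w' h h'
    refine ⟨fun q hq => (h.1 q hq).add (h'.1 q hq), fun p => ?_⟩
    obtain ⟨C, hC⟩ := h.2 p
    obtain ⟨C', hC'⟩ := h'.2 p
    refine ⟨C + C', ?_⟩
    filter_upwards [hC, hC'] with q hq hq' h0
    calc ‖w q + w' q‖ * ‖u q‖ ^ m ≤ (‖w q‖ + ‖w' q‖) * ‖u q‖ ^ m := by
          gcongr; exact norm_add_le _ _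
      _ = ‖w q‖ * ‖u q‖ ^ m + ‖w' q‖ * ‖u q‖ ^ m := by ring
      _ ≤ C + C' := add_le_add (hq h0) (hq' h0)
  induction r with
  | zero => intro m w w' h h'; exact key h h'
  | succ r ih =>
    intro m w w' h h'
    refine ⟨key h.1 h'.1, fun q hq => (h.2.1 q hq).add (h'.2.1 q hq), fun y => ?_⟩
    refine (ih (h.2.2 y) (h'.2.2 y)).congr hu fun q hq => ?_
    rw [fderiv_fun_add (h.2.1 q hq) (h'.2.1 q hq)]
    rfl

theorem Tame.mul {r : ℕ} (hu : Continuous u) : ∀ {m m' : ℕ} {w w' : Plane → ℂ},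
    Tame u r m w → Tame u r m' w' → Tame u r (m + m') (fun q => w q * w' q) := by
  have key : ∀ {m m' : ℕ} {w w' : Plane → ℂ}, ((∀ q, u q ≠ 0 → ContinuousAt w q) ∧
      ∀ p, ∃ C : ℝ, ∀ᶠ q in 𝓝 p, u q ≠ 0 → ‖w q‖ * ‖u q‖ ^ m ≤ C) →
      ((∀ q, u q ≠ 0 → ContinuousAt w' q) ∧
      ∀ p, ∃ C : ℝ, ∀ᶠ q in 𝓝 p, u q ≠ 0 → ‖w' q‖ * ‖u q‖ ^ m' ≤ C) →
      ((∀ q, u q ≠ 0 → ContinuousAt (fun q => w q * w' q) q) ∧
      ∀ p, ∃ C : ℝ, ∀ᶠ q in 𝓝 p, u q ≠ 0 → ‖w q * w' q‖ * ‖u q‖ ^ (m + m') ≤ C) := by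
    intro m m' w w' h h'
    refine ⟨fun q hq => (h.1 q hq).mul (h'.1 q hq), fun p => ?_⟩
    obtain ⟨C, hC⟩ := h.2 p
    obtain ⟨C', hC'⟩ := h'.2 p
    refine ⟨|C| * |C'|, ?_⟩
    filter_upwards [hC, hC'] with q hq hq' h0
    have e : ‖w q * w' q‖ * ‖u q‖ ^ (m + m') =
        (‖w q‖ * ‖u q‖ ^ m) * (‖w' q‖ * ‖u q‖ ^ m') := by
      rw [norm_mul, pow_add]; ring
    rw [e]
    exact mul_le_mul ((hq h0).trans (le_abs_self _)) ((hq' h0).trans (le_abs_self _))
      (by positivity) (abs_nonneg _)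
  induction r with
  | zero => intro m m' w w' h h'; exact key h h'
  | succ r ih =>
    intro m m' w w' h h'
    refine ⟨key h.1 h'.1, fun q hq => (h.2.1 q hq).mul (h'.2.1 q hq), fun y => ?_⟩
    have h1 : Tame u r (m + m' + 1) (fun q => w q * fderiv ℝ w' q y) :=
      (ih h.pred (h'.2.2 y)).mono hu (by omega)
    have h2 : Tame u r (m + m' + 1) (fun q => fderiv ℝ w q y * w' q) :=
      (ih (h.2.2 y) h'.pred).mono hu (by omega)
    refine (h1.add hu h2).congr hu fun q hq => ?_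
    rw [fderiv_fun_mul (h.2.1 q hq) (h'.2.1 q hq)]
    simp only [add_apply, smul_apply, smul_eq_mul]
    ring

/-- The inverse of a function bounded below by a multiple of `|u|`. -/
theorem Tame.inv {r : ℕ} (hu : Continuous u) {θ : Plane → ℂ} (hθ : ContDiff ℝ r θ) {C : ℝ}
    (hC : ∀ q, ‖u q‖ ≤ C * ‖θ q‖) : Tame u r 1 (fun q => (θ q)⁻¹) := by
  have hne : ∀ q, u q ≠ 0 → θ q ≠ 0 := by
    intro q hq h0
    have := hC q
    rw [h0, norm_zero, mul_zero] at this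
    exact hq (norm_le_zero_iff.1 this)
  have key : Continuous θ → ((∀ q, u q ≠ 0 → ContinuousAt (fun q => (θ q)⁻¹) q) ∧
      ∀ p, ∃ C : ℝ, ∀ᶠ q in 𝓝 p, u q ≠ 0 → ‖(θ q)⁻¹‖ * ‖u q‖ ^ 1 ≤ C) := by
    intro h
    refine ⟨fun q hq => (h.continuousAt).inv₀ (hne q hq), fun p => ⟨C, Eventually.of_forall ?_⟩⟩
    intro q hq
    have h1 : 0 < ‖θ q‖ := norm_pos_iff.2 (hne q hq)
    rw [norm_inv, pow_one, inv_mul_le_iff₀ h1, mul_comm]
    exact hC q
  induction r with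
  | zero => exact key hθ.continuous
  | succ r ih =>
    have hθ' : ContDiff ℝ ((r : WithTop ℕ∞) + 1) θ := by exact_mod_cast hθ
    have hθ'' := hθ'
    rw [contDiff_succ_iff_fderiv_apply] at hθ''
    have ih' := ih (hθ.of_le (by exact_mod_cast Nat.le_succ r))
    refine ⟨key hθ.continuous, fun q hq => (hθ''.1 q).inv (hne q hq), fun y => ?_⟩
    have h1 : Tame u r 0 (fun q => -(fderiv ℝ θ q y)) :=
      Tame.of_contDiff hu (hθ''.2.2 y).neg
    have h2 := ((h1.mul hu ih').mul hu ih')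
    refine h2.congr hu fun q hq => ?_
    have h3 : HasFDerivAt (fun q => (θ q)⁻¹) (-((θ q ^ 2)⁻¹) • fderiv ℝ θ q) q := by
      have := (hθ''.1 q).hasFDerivAt
      have h4 := (hasDerivAt_inv (hne q hq)).comp_hasFDerivAt q this
      simpa using! h4
    rw [h3.fderiv]
    simp only [smul_apply, smul_eq_mul]
    rw [sq, mul_inv]
    ring

/-- The main lemma. -/
theorem Tame.contDiff {r : ℕ} (hu : ContDiff ℝ ⊤ u) : ∀ {m a : ℕ} {w : Plane → ℂ},
    Tame u r m w → m + r + 1 ≤ a → ContDiff ℝ r (fun q => u q ^ a * w q) := by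
  have huc := hu.continuous
  -- local bound
  have bound : ∀ {r m a : ℕ} {w : Plane → ℂ}, Tame u r m w → m ≤ a → 1 ≤ a → ∀ p,
      (fun q => u q ^ a * w q) =O[𝓝 p] (fun q => ‖u q‖ ^ (a - m)) := by
    intro r m a w h hma h1a p
    obtain ⟨C, hC⟩ := h.base.2 p
    refine IsBigO.of_bound |C| ?_
    filter_upwards [hC] with q hq
    by_cases h0 : u q = 0
    · rw [h0, zero_pow (by omega), zero_mul, norm_zero]; positivity
    · have e : ‖u q ^ a * w q‖ = (‖w q‖ * ‖u q‖ ^ m) * ‖u q‖ ^ (a - m) := by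
        rw [norm_mul, norm_pow, show ‖u q‖ ^ a = ‖u q‖ ^ m * ‖u q‖ ^ (a - m) by
          rw [← pow_add]; congr 1; omega]
        ring
      rw [e, Real.norm_of_nonneg (by positivity : 0 ≤ ‖u q‖ ^ (a - m))]
      exact mul_le_mul_of_nonneg_right ((hq h0).trans (le_abs_self _)) (by positivity)
  have cont : ∀ {m a : ℕ} {w : Plane → ℂ}, Tame u 0 m w → m + 1 ≤ a →
      Continuous (fun q => u q ^ a * w q) := by
    intro m a w h hma
    refine continuous_iff_continuousAt.2 fun p => ?_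
    by_cases h0 : u p = 0
    · have h1 := bound (a := a) h (by omega) (by omega) p
      have h2 : Tendsto (fun q => ‖u q‖ ^ (a - m)) (𝓝 p) (𝓝 0) := by
        have h5 : Tendsto (fun q => ‖u q‖ ^ (a - m)) (𝓝 p) (𝓝 (‖u p‖ ^ (a - m))) :=
          (huc.norm.pow (a - m)).tendsto p
        rwa [h0, norm_zero, zero_pow (show a - m ≠ 0 by omega)] at h5
      have h3 := h1.trans_tendsto h2
      have h4 : u p ^ a * w p = 0 := by
        simp [h0, zero_pow (show a ≠ 0 by omega)]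
      rw [ContinuousAt, h4]
      exact h3
    · exact ((huc.continuousAt).pow a).mul (h.1 p h0)
  induction r with
  | zero =>
    intro m a w h hma
    exact contDiff_zero.2 (cont h (by omega))
  | succ r ih =>
    intro m a w h hma
    have hder : ∀ p, HasFDerivAt (fun q => u q ^ a * w q)
        ((a * u p ^ (a - 1) * w p) • fderiv ℝ u p + (u p ^ a) • fderiv ℝ w p) p := by
      intro p
      have hup : HasFDerivAt u (fderiv ℝ u p) p :=
        (hu.differentiable (by simp) p).hasFDerivAt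
      by_cases h0 : u p = 0
      · have h1 := bound (a := a) h (by omega) (by omega) p
        have h2 : (fun q => u q) =O[𝓝 p] fun q => q - p := by
          have := hup.isBigO_sub
          simpa [h0] using this
        have h3 : (fun q => ‖u q‖ ^ (a - m)) =O[𝓝 p] fun q => ‖q - p‖ ^ (a - m) :=
          h2.norm_norm.pow (a - m)
        have h4 := (h1.trans h3).hasFDerivAt (E := Plane) (F := ℂ) (𝕜 := ℝ) (n := a - m)
          (by omega)
        have e : ((a * u p ^ (a - 1) * w p) • fderiv ℝ u p + (u p ^ a) • fderiv ℝ w p) =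
            (0 : Plane →L[ℝ] ℂ) := by
          rw [h0, zero_pow (show a - 1 ≠ 0 by omega), zero_pow (show a ≠ 0 by omega)]
          rw [mul_zero, zero_mul]
          ext y <;> simp
        rw [e]
        exact h4
      · have h1 : HasFDerivAt (fun q => u q ^ a) ((a * u p ^ (a - 1)) • fderiv ℝ u p) p := by
          have := (hasDerivAt_pow a (u p)).comp_hasFDerivAt p hup
          simpa using! this
        have h2 := h1.mul (h.2.1 p h0).hasFDerivAt
        refine h2.congr_fderiv ?_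
        refine ContinuousLinearMap.ext fun y => ?_
        simp only [add_apply, smul_apply, smul_eq_mul]
        ring
    have hdiff : Differentiable ℝ (fun q => u q ^ a * w q) :=
      fun p => (hder p).differentiableAt
    have goal : ContDiff ℝ ((r : WithTop ℕ∞) + 1) (fun q => u q ^ a * w q) := by
      rw [contDiff_succ_iff_fderiv_apply]
      refine ⟨hdiff, by simp, fun y => ?_⟩
      have e : (fun p => fderiv ℝ (fun q => u q ^ a * w q) p y) =
          fun p => (a * fderiv ℝ u p y) * (u p ^ (a - 1) * w p) +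
            u p ^ a * fderiv ℝ w p y := by
        funext p
        rw [(hder p).fderiv]
        simp only [add_apply, smul_apply, smul_eq_mul]
        ring
      rw [e]
      have h1 : ContDiff ℝ r (fun q => u q ^ (a - 1) * w q) := ih h.pred (by omega)
      have h2 : ContDiff ℝ r (fun q => u q ^ a * fderiv ℝ w q y) := ih (h.2.2 y) (by omega)
      have h3 : ContDiff ℝ r (fun p => (a : ℂ) * fderiv ℝ u p y) := by
        have : ContDiff ℝ r (fun p => fderiv ℝ u p y) := by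
          have h4 : ContDiff ℝ ((r : WithTop ℕ∞) + 1) u := hu.of_le (by exact_mod_cast le_top)
          rw [contDiff_succ_iff_fderiv_apply] at h4
          exact h4.2.2 y
        exact contDiff_const.mul this
      exact (h3.mul h1).add h2
    exact_mod_cast goal

end HRTCounter
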