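import Pool.Agent.Work.MP_505f06_an.Tame

/-!
# A section of the line bundle of degree one with a single zero
-/

open Filter Topology Asymptotics

namespace HRTCounter

/-- The character `e t = exp (2 π i t)`. -/
noncomputable def e (t : ℝ) : ℂ :=
  Complex.exp (2 * (Real.pi : ℂ) * Complex.I * (t : ℂ))

theorem e_add (s t : ℝ) : e (s + t) = e s * e t := by
  rw [e, e, e, ← Complex.exp_add]
  push_cast
  ring_nf

theorem e_zero : e 0 = 1 := by simp [e]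

theorem e_neg_mul_self (t : ℝ) : e (-t) * e t = 1 := by
  rw [← e_add, neg_add_cancel, e_zero]

theorem e_self_mul_neg (t : ℝ) : e t * e (-t) = 1 := by
  rw [← e_add, add_neg_cancel, e_zero]

theorem e_ne_zero (t : ℝ) : e t ≠ 0 := Complex.exp_ne_zero _

theorem e_int (n : ℤ) : e n = 1 := by
  rw [e, Complex.exp_eq_one_iff]
  exact ⟨n, by push_cast; ring⟩

theorem e_one : e 1 = 1 := by
  have := e_int 1
  simpa using this

theorem e_add_int (t : ℝ) (n : ℤ) : e (t + n) = e t := by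
  rw [e_add, e_int, mul_one]

theorem norm_e (t : ℝ) : ‖e t‖ = 1 := by
  rw [e, show 2 * (Real.pi : ℂ) * Complex.I * (t : ℂ) = ((2 * Real.pi * t : ℝ) : ℂ) * Complex.I by
    push_cast; ring]
  exact Complex.norm_exp_ofReal_mul_I _

theorem e_sub (s t : ℝ) : e (s - t) = e s * e (-t) := by
  rw [sub_eq_add_neg, e_add]

theorem contDiff_e {n : WithTop ℕ∞} : ContDiff ℝ n e := by
  unfold e
  exact (contDiff_const.mul (Complex.ofRealCLM.contDiff)).cexp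

theorem continuous_e : Continuous e := contDiff_e.continuous (n := 0)

/-- The function `sin (π x)`, on the plane. -/
noncomputable def sinU (p : Plane) : ℂ := ((Real.sin (Real.pi * p.1) : ℝ) : ℂ)

theorem contDiff_sinU {n : WithTop ℕ∞} : ContDiff ℝ n sinU := by
  unfold sinU
  exact Complex.ofRealCLM.contDiff.comp
    (Real.contDiff_sin.comp (contDiff_const.mul contDiff_fst))

theorem continuous_sinU : Continuous sinU := contDiff_sinU.continuous (n := 0)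

theorem floor_lt_of_sinU_ne {q : Plane} (hq : sinU q ≠ 0) : (⌊q.1⌋ : ℝ) < q.1 := by
  refine lt_of_le_of_ne (Int.floor_le _) fun h => hq ?_
  rw [sinU, ← h, mul_comm, Real.sin_int_mul_pi]
  simp

theorem eventually_floor_eq {q : Plane} (hq : sinU q ≠ 0) :
    ∀ᶠ x in 𝓝 q, ⌊(x : Plane).1⌋ = ⌊q.1⌋ := by
  have h1 := floor_lt_of_sinU_ne hq
  have h2 := Int.lt_floor_add_one q.1
  have h3 : Tendsto (fun x : Plane => x.1) (𝓝 q) (𝓝 q.1) := continuous_fst.tendsto q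
  filter_upwards [h3.eventually (Ioo_mem_nhds h1 h2)] with x hx
  rw [Int.floor_eq_iff]
  exact ⟨hx.1.le, hx.2⟩

theorem tame_floor (r : ℕ) : ∀ (W : ℤ → Plane → ℂ), (∀ n, ∀ k : ℕ, ContDiff ℝ k (W n)) →
    ∀ m, Tame sinU r m (fun p => W ⌊p.1⌋ p) := by
  have ev : ∀ (W : ℤ → Plane → ℂ) (q : Plane), sinU q ≠ 0 →
      (fun p : Plane => W ⌊p.1⌋ p) =ᶠ[𝓝 q] W ⌊q.1⌋ := by
    intro W q hq
    filter_upwards [eventually_floor_eq hq] with x hx
    rw [hx]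
  have key : ∀ (W : ℤ → Plane → ℂ), (∀ n, Continuous (W n)) → ∀ m : ℕ,
      ((∀ q, sinU q ≠ 0 → ContinuousAt (fun p : Plane => W ⌊p.1⌋ p) q) ∧
      ∀ p : Plane, ∃ C : ℝ, ∀ᶠ q in 𝓝 p, sinU q ≠ 0 →
        ‖W ⌊(q : Plane).1⌋ q‖ * ‖sinU q‖ ^ m ≤ C) := by
    intro W hW m
    refine ⟨fun q hq => ((hW _).continuousAt).congr (ev W q hq).symm, fun p => ?_⟩
    have hc : Continuous fun q : Plane => (‖W (⌊p.1⌋ - 1) q‖ + ‖W ⌊p.1⌋ q‖ +
        ‖W (⌊p.1⌋ + 1) q‖) * ‖sinU q‖ ^ m :=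
      (((hW _).norm.add (hW _).norm).add (hW _).norm).mul (continuous_sinU.norm.pow m)
    have h1 : Tendsto (fun x : Plane => x.1) (𝓝 p) (𝓝 p.1) := continuous_fst.tendsto p
    refine ⟨(‖W (⌊p.1⌋ - 1) p‖ + ‖W ⌊p.1⌋ p‖ +
        ‖W (⌊p.1⌋ + 1) p‖) * ‖sinU p‖ ^ m + 1, ?_⟩
    filter_upwards [hc.continuousAt.eventually_lt_const (lt_add_one _),
      h1.eventually (Ioo_mem_nhds (sub_one_lt p.1) (lt_add_one p.1))] with q hq hq2 _
    refine le_trans ?_ hq.le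
    have hf : ⌊q.1⌋ = ⌊p.1⌋ - 1 ∨ ⌊q.1⌋ = ⌊p.1⌋ ∨ ⌊q.1⌋ = ⌊p.1⌋ + 1 := by
      have h2 : ⌊p.1⌋ - 1 ≤ ⌊q.1⌋ := by
        rw [Int.le_floor]; push_cast
        have := Int.floor_le p.1
        linarith [hq2.1]
      have h3 : ⌊q.1⌋ < ⌊p.1⌋ + 2 := by
        rw [Int.floor_lt]; push_cast
        have := Int.lt_floor_add_one p.1
        linarith [hq2.2]
      omega
    refine mul_le_mul_of_nonneg_right ?_ (by positivity)
    have n1 := norm_nonneg (W (⌊p.1⌋ - 1) q)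
    have n2 := norm_nonneg (W ⌊p.1⌋ q)
    have n3 := norm_nonneg (W (⌊p.1⌋ + 1) q)
    rcases hf with h | h | h <;> rw [h] <;> linarith
  induction r with
  | zero => intro W hW m; exact key W (fun n => (hW n 0).continuous) m
  | succ r ih =>
    intro W hW m
    refine ⟨key W (fun n => (hW n 0).continuous) m, fun q hq => ?_, fun y => ?_⟩
    · exact ((hW ⌊q.1⌋ 1).differentiable (by simp) q).congr_of_eventuallyEq (ev W q hq)
    · have h1 : Tame sinU r (m + 1) (fun p : Plane => fderiv ℝ (W ⌊p.1⌋) p y) := by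
        refine ih (fun n p => fderiv ℝ (W n) p y) (fun n k => ?_) (m + 1)
        have h2 : ContDiff ℝ ((k : WithTop ℕ∞) + 1) (W n) := by
          have := hW n (k + 1)
          exact_mod_cast this
        rw [contDiff_succ_iff_fderiv_apply] at h2
        exact h2.2.2 y
      refine h1.congr continuous_sinU fun q hq => ?_
      rw [(ev W q hq).fderiv_eq]

/-- The building block `sin (π x) ^ 8 * e (⌊x⌋ ξ)`. -/
noncomputable def E0 (p : Plane) : ℂ := sinU p ^ 8 * e (⌊p.1⌋ * p.2)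

theorem contDiff_E0 : ContDiff ℝ 6 E0 := by
  have h : Tame sinU 6 0 (fun p => e (⌊p.1⌋ * p.2)) := by
    refine tame_floor 6 (fun n p => e (n * p.2)) (fun n k => ?_) 0
    exact contDiff_e.comp (contDiff_const.mul contDiff_snd)
  exact h.contDiff contDiff_sinU (a := 8) (by norm_num)

theorem sinU_add_one_sq (x ξ : ℝ) : sinU (x + 1, ξ) ^ 8 = sinU (x, ξ) ^ 8 := by
  have : sinU (x + 1, ξ) = -sinU (x, ξ) := by
    simp only [sinU, mul_add, mul_one, Real.sin_add_pi]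
    push_cast; ring
  rw [this]; ring

theorem E0_add_one (x ξ : ℝ) : E0 (x + 1, ξ) = e ξ * E0 (x, ξ) := by
  have h : (⌊x + 1⌋ : ℝ) * ξ = ξ + ⌊x⌋ * ξ := by
    rw [Int.floor_add_one]; push_cast; ring
  simp only [E0, sinU_add_one_sq, h, e_add]
  ring

theorem E0_add_one' (x ξ : ℝ) : E0 (x, ξ + 1) = E0 (x, ξ) := by
  have h : (⌊x⌋ : ℝ) * (ξ + 1) = ⌊x⌋ * ξ + ⌊x⌋ := by ring
  simp only [E0, h, e_add_int]
  rfl

/-- The section. -/
noncomputable def theta (p : Plane) : ℂ := E0 (p.1 + 1 / 2, p.2) + e p.2 * E0 p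

theorem contDiff_theta : ContDiff ℝ 6 theta := by
  unfold theta
  refine (contDiff_E0.comp ?_).add ((contDiff_e.comp contDiff_snd).mul contDiff_E0)
  exact (contDiff_fst.add contDiff_const).prodMk contDiff_snd

theorem theta_add_one (x ξ : ℝ) : theta (x + 1, ξ) = e ξ * theta (x, ξ) := by
  simp only [theta]
  rw [show x + 1 + 1 / 2 = (x + 1 / 2) + 1 by ring, E0_add_one, E0_add_one]
  ring

theorem theta_add_one' (x ξ : ℝ) : theta (x, ξ + 1) = theta (x, ξ) := by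
  have h : e (ξ + 1) = e ξ := by
    rw [e_add, e_one, mul_one]
  simp only [theta, E0_add_one', h]

/-- The function vanishing at the abscissa of the zero. -/
noncomputable def uu (p : Plane) : ℂ := ((1 - Real.sin (2 * Real.pi * p.1) : ℝ) : ℂ)

theorem contDiff_uu {n : WithTop ℕ∞} : ContDiff ℝ n uu := by
  unfold uu
  exact Complex.ofRealCLM.contDiff.comp
    (contDiff_const.sub (Real.contDiff_sin.comp (contDiff_const.mul contDiff_fst)))

theorem sinU_half (x ξ : ℝ) : sinU (x + 1 / 2, ξ) = ((Real.cos (Real.pi * x) : ℝ) : ℂ) := by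
  simp only [sinU]
  rw [show Real.pi * (x + 1 / 2) = Real.pi * x + Real.pi / 2 by ring, Real.sin_add_pi_div_two]

theorem floor_half_lt {x : ℝ} (h : Int.fract x < 1 / 2) : ⌊x + 1 / 2⌋ = ⌊x⌋ := by
  rw [Int.floor_eq_iff]
  have h1 := Int.floor_add_fract x
  have h2 := Int.fract_nonneg x
  constructor <;> linarith

theorem floor_half_ge {x : ℝ} (h : 1 / 2 ≤ Int.fract x) : ⌊x + 1 / 2⌋ = ⌊x⌋ + 1 := by
  rw [Int.floor_eq_iff]
  have h1 := Int.floor_add_fract x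
  have h2 := Int.fract_lt_one x
  push_cast
  constructor <;> linarith

theorem theta_eq_lt {x : ℝ} (h : Int.fract x < 1 / 2) (ξ : ℝ) : theta (x, ξ) =
    e (⌊x⌋ * ξ) * (((Real.cos (Real.pi * x) : ℝ) : ℂ) ^ 8 +
      ((Real.sin (Real.pi * x) : ℝ) : ℂ) ^ 8 * e ξ) := by
  simp only [theta, E0]
  rw [sinU_half, floor_half_lt h]
  simp only [sinU]
  ring

theorem theta_eq_ge {x : ℝ} (h : 1 / 2 ≤ Int.fract x) (ξ : ℝ) : theta (x, ξ) =
    e (⌊x⌋ * ξ) * e ξ * (((Real.cos (Real.pi * x) : ℝ) : ℂ) ^ 8 +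
      ((Real.sin (Real.pi * x) : ℝ) : ℂ) ^ 8) := by
  simp only [theta, E0]
  rw [sinU_half, floor_half_ge h]
  have : e (((⌊x⌋ + 1 : ℤ) : ℝ) * ξ) = e (⌊x⌋ * ξ) * e ξ := by
    rw [← e_add]; congr 1; push_cast; ring
  simp only [sinU, this]
  ring

theorem norm_uu_le (q : Plane) : ‖uu q‖ ≤ 16 * ‖theta q‖ := by
  obtain ⟨x, ξ⟩ := q
  set c := Real.cos (Real.pi * x) with hc
  set s := Real.sin (Real.pi * x) with hs
  have hcs : s ^ 2 + c ^ 2 = 1 := Real.sin_sq_add_cos_sq _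
  have hsin2 : Real.sin (2 * Real.pi * x) = 2 * s * c := by
    rw [show 2 * Real.pi * x = 2 * (Real.pi * x) by ring, Real.sin_two_mul]
  have hu : ‖uu (x, ξ)‖ = 1 - 2 * s * c := by
    simp only [uu, hsin2]
    rw [Complex.norm_real, Real.norm_of_nonneg]
    nlinarith [sq_nonneg (s - c)]
  rw [hu]
  rcases lt_or_ge (Int.fract x) (1 / 2) with h | h
  · rw [theta_eq_lt h, norm_mul, norm_e, one_mul]
    have hsc : 0 ≤ s * c := by
      have h1 : 0 ≤ Real.sin (2 * Real.pi * Int.fract x) := by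
        refine Real.sin_nonneg_of_nonneg_of_le_pi ?_ ?_
        · have := Int.fract_nonneg x
          positivity
        · nlinarith [Real.pi_pos]
      have h2 : Real.sin (2 * Real.pi * x) = Real.sin (2 * Real.pi * Int.fract x) := by
        conv_lhs => rw [← Int.floor_add_fract x]
        rw [show 2 * Real.pi * ((⌊x⌋ : ℝ) + Int.fract x) =
          2 * Real.pi * Int.fract x + ⌊x⌋ * (2 * Real.pi) by ring, Real.sin_add_int_mul_two_pi]
      rw [← h2, hsin2] at h1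
      nlinarith
    have h3 : |c ^ 8 - s ^ 8| ≤ ‖((c : ℝ) : ℂ) ^ 8 + ((s : ℝ) : ℂ) ^ 8 * e ξ‖ := by
      have h4 := norm_sub_norm_le (((c : ℝ) : ℂ) ^ 8) (-(((s : ℝ) : ℂ) ^ 8 * e ξ))
      have h5 := norm_sub_norm_le (((s : ℝ) : ℂ) ^ 8 * e ξ) (-(((c : ℝ) : ℂ) ^ 8))
      rw [sub_neg_eq_add, norm_neg, norm_mul, norm_e, mul_one] at h4
      rw [sub_neg_eq_add, norm_neg, norm_mul, norm_e, mul_one, add_comm] at h5
      simp only [norm_pow, Complex.norm_real, Real.norm_eq_abs] at h4 h5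
      have e1 : |c| ^ 8 = c ^ 8 := (Even.pow_abs (by decide) c)
      have e2 : |s| ^ 8 = s ^ 8 := (Even.pow_abs (by decide) s)
      rw [e1, e2] at h4 h5
      exact abs_le.2 ⟨by linarith, h4⟩
    refine le_trans ?_ (mul_le_mul_of_nonneg_left h3 (by norm_num))
    have e3 : c ^ 8 - s ^ 8 = (c ^ 2 - s ^ 2) * ((c ^ 4 + s ^ 4)) := by
      have : c ^ 8 - s ^ 8 = (c ^ 2 - s ^ 2) * (c ^ 4 + s ^ 4) * (s ^ 2 + c ^ 2) := by ring
      rw [this, hcs, mul_one]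
    have h6 : 1 / 2 ≤ c ^ 4 + s ^ 4 := by nlinarith [sq_nonneg (c ^ 2 - s ^ 2)]
    have h7 : 1 - 2 * s * c ≤ |c ^ 2 - s ^ 2| := by
      have h8 : (c ^ 2 - s ^ 2) ^ 2 = (1 - 2 * s * c) * (1 + 2 * s * c) := by
        have : (c ^ 2 - s ^ 2) ^ 2 = (s ^ 2 + c ^ 2) ^ 2 - 4 * s ^ 2 * c ^ 2 := by ring
        rw [this, hcs]; ring
      have h9 : 0 ≤ 1 - 2 * s * c := by nlinarith [sq_nonneg (s - c)]
      have h10 : (1 - 2 * s * c) ^ 2 ≤ (c ^ 2 - s ^ 2) ^ 2 := by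
        rw [h8, sq]
        exact mul_le_mul_of_nonneg_left (by nlinarith) h9
      calc 1 - 2 * s * c = |1 - 2 * s * c| := (abs_of_nonneg h9).symm
        _ ≤ |c ^ 2 - s ^ 2| := sq_le_sq.1 h10
    rw [e3, abs_mul, abs_of_pos (by linarith : 0 < c ^ 4 + s ^ 4)]
    nlinarith [abs_nonneg (c ^ 2 - s ^ 2)]
  · rw [theta_eq_ge h, norm_mul, norm_mul, norm_e, norm_e, one_mul, one_mul]
    have e1 : ‖((c : ℝ) : ℂ) ^ 8 + ((s : ℝ) : ℂ) ^ 8‖ = c ^ 8 + s ^ 8 := by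
      rw [show ((c : ℝ) : ℂ) ^ 8 + ((s : ℝ) : ℂ) ^ 8 = ((c ^ 8 + s ^ 8 : ℝ) : ℂ) by push_cast; ring,
        Complex.norm_real, Real.norm_of_nonneg (by positivity)]
    rw [e1]
    have h6 : 1 / 2 ≤ c ^ 4 + s ^ 4 := by nlinarith [sq_nonneg (c ^ 2 - s ^ 2)]
    have h7 : 1 / 8 ≤ c ^ 8 + s ^ 8 := by nlinarith [sq_nonneg (c ^ 4 - s ^ 4)]
    nlinarith [sq_nonneg (s + c)]

/-- The first trigonometric polynomial. -/
noncomputable def P1 (p : Plane) : ℂ :=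
  (((Real.cos (Real.pi * p.1) : ℝ) : ℂ) ^ 8 + ((Real.sin (Real.pi * p.1) : ℝ) : ℂ) ^ 8) *
    (((Real.cos (Real.pi * p.1) : ℝ) : ℂ) ^ 8 +
      ((Real.sin (Real.pi * p.1) : ℝ) : ℂ) ^ 8 * e p.2)

theorem fract_sub_half_lt {x : ℝ} (h : Int.fract x < 1 / 2) :
    1 / 2 ≤ Int.fract (x - 1 / 2) ∧ ⌊x - 1 / 2⌋ = ⌊x⌋ - 1 := by
  have h0 : ⌊x - 1 / 2⌋ = ⌊x⌋ - 1 := by
    rw [Int.floor_eq_iff]
    have h1 := Int.floor_add_fract x
    have h2 := Int.fract_nonneg x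
    push_cast
    constructor <;> linarith
  refine ⟨?_, h0⟩
  rw [Int.fract, h0]
  have h1 := Int.floor_add_fract x
  have h2 := Int.fract_nonneg x
  push_cast
  linarith

theorem fract_sub_half_ge {x : ℝ} (h : 1 / 2 ≤ Int.fract x) :
    Int.fract (x - 1 / 2) < 1 / 2 ∧ ⌊x - 1 / 2⌋ = ⌊x⌋ := by
  have h0 : ⌊x - 1 / 2⌋ = ⌊x⌋ := by
    rw [Int.floor_eq_iff]
    have h1 := Int.floor_add_fract x
    have h2 := Int.fract_lt_one x
    constructor <;> linarith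
  refine ⟨?_, h0⟩
  rw [Int.fract, h0]
  have h1 := Int.floor_add_fract x
  have h2 := Int.fract_lt_one x
  linarith

theorem theta_mul_theta (x ξ : ℝ) : theta (x, ξ) * theta (x - 1 / 2, -ξ) = P1 (x, ξ) := by
  have hcos : Real.cos (Real.pi * (x - 1 / 2)) = Real.sin (Real.pi * x) := by
    rw [show Real.pi * (x - 1 / 2) = Real.pi * x - Real.pi / 2 by ring, Real.cos_sub_pi_div_two]
  have hsin : Real.sin (Real.pi * (x - 1 / 2)) = -Real.cos (Real.pi * x) := by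
    rw [show Real.pi * (x - 1 / 2) = Real.pi * x - Real.pi / 2 by ring, Real.sin_sub_pi_div_two]
  have hs8 : (((-Real.cos (Real.pi * x) : ℝ)) : ℂ) ^ 8 = ((Real.cos (Real.pi * x) : ℝ) : ℂ) ^ 8 := by
    push_cast; ring
  have he := e_self_mul_neg ξ
  have he2 : e (⌊x⌋ * ξ) * e (⌊x⌋ * -ξ) = 1 := by
    rw [← e_add]; simp [e_zero]
  rcases lt_or_ge (Int.fract x) (1 / 2) with h | h
  · obtain ⟨h1, h2⟩ := fract_sub_half_lt h
    rw [theta_eq_lt h, theta_eq_ge h1, h2, hcos, hsin, hs8]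
    have h3 : e (((⌊x⌋ - 1 : ℤ) : ℝ) * -ξ) = e (⌊x⌋ * -ξ) * e ξ := by
      rw [← e_add]; congr 1; push_cast; ring
    rw [h3]
    simp only [P1]
    linear_combination (((Real.cos (Real.pi * x) : ℝ) : ℂ) ^ 8 +
      ((Real.sin (Real.pi * x) : ℝ) : ℂ) ^ 8 * e ξ) * (((Real.sin (Real.pi * x) : ℝ) : ℂ) ^ 8 +
      ((Real.cos (Real.pi * x) : ℝ) : ℂ) ^ 8) * (e (⌊x⌋ * ξ) * e (⌊x⌋ * -ξ) * he + he2)
  · obtain ⟨h1, h2⟩ := fract_sub_half_ge h
    rw [theta_eq_ge h, theta_eq_lt h1, h2, hcos, hsin, hs8]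
    simp only [P1]
    linear_combination (((Real.cos (Real.pi * x) : ℝ) : ℂ) ^ 8 +
      ((Real.sin (Real.pi * x) : ℝ) : ℂ) ^ 8) * ((((Real.sin (Real.pi * x) : ℝ) : ℂ) ^ 8) * e ξ +
      ((Real.cos (Real.pi * x) : ℝ) : ℂ) ^ 8) * he2 +
      (((Real.cos (Real.pi * x) : ℝ) : ℂ) ^ 8 + ((Real.sin (Real.pi * x) : ℝ) : ℂ) ^ 8) *
      ((Real.cos (Real.pi * x) : ℝ) : ℂ) ^ 8 * e (⌊x⌋ * ξ) * e (⌊x⌋ * -ξ) * he

/-- `u ^ 8 / θ`. -/
noncomputable def kappa (p : Plane) : ℂ := uu p ^ 8 * (theta p)⁻¹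

theorem contDiff_kappa : ContDiff ℝ 6 kappa := by
  have hu : Continuous uu := contDiff_uu.continuous (n := 0)
  have h : Tame uu 6 1 (fun q => (theta q)⁻¹) :=
    Tame.inv hu (by exact_mod_cast contDiff_theta) norm_uu_le
  exact h.contDiff contDiff_uu (a := 8) (by norm_num)

theorem kappa_mul_theta (p : Plane) : kappa p * theta p = uu p ^ 8 := by
  by_cases h : theta p = 0
  · have h1 := norm_uu_le p
    rw [h, norm_zero, mul_zero] at h1
    rw [h, mul_zero, norm_le_zero_iff.1 h1]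
    norm_num
  · rw [kappa, mul_assoc, inv_mul_cancel₀ h, mul_one]

theorem uu_add_one (x ξ : ℝ) : uu (x + 1, ξ) = uu (x, ξ) := by
  simp only [uu]
  rw [show 2 * Real.pi * (x + 1) = 2 * Real.pi * x + 2 * Real.pi by ring, Real.sin_add_two_pi]

theorem uu_snd (x ξ ξ' : ℝ) : uu (x, ξ) = uu (x, ξ') := rfl

theorem kappa_add_one (x ξ : ℝ) : kappa (x + 1, ξ) = e (-ξ) * kappa (x, ξ) := by
  simp only [kappa, uu_add_one, theta_add_one, mul_inv]
  rw [inv_eq_of_mul_eq_one_left (e_neg_mul_self ξ)]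
  ring

theorem kappa_add_one' (x ξ : ℝ) : kappa (x, ξ + 1) = kappa (x, ξ) := by
  simp only [kappa, theta_add_one', uu_snd x (ξ + 1) ξ]

end HRTCounter
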