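import Pool.Agent.Work.MP_505f06_an.Theta

/-!
# The window: inverse Zak transform of a quasi-periodic function
-/

open Filter Topology MeasureTheory

namespace HRTCounter

/-- Quasi-periodic functions on the plane. -/
def QPer (G : Plane → ℂ) : Prop :=
  (∀ x ξ : ℝ, G (x + 1, ξ) = e ξ * G (x, ξ)) ∧ ∀ x ξ : ℝ, G (x, ξ + 1) = G (x, ξ)

theorem QPer.add_nat {G : Plane → ℂ} (h : QPer G) (x ξ : ℝ) (m : ℕ) :
    G (x + m, ξ) = e (m * ξ) * G (x, ξ) := by
  induction m with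
  | zero => simp [e_zero]
  | succ m ih =>
    have h1 : ((m + 1 : ℕ) : ℝ) * ξ = ξ + m * ξ := by push_cast; ring
    rw [show x + ((m + 1 : ℕ) : ℝ) = (x + m) + 1 by push_cast; ring, h.1, ih, h1, e_add]
    ring

theorem QPer.add_int {G : Plane → ℂ} (h : QPer G) (x ξ : ℝ) (m : ℤ) :
    G (x + m, ξ) = e (m * ξ) * G (x, ξ) := by
  obtain ⟨k, rfl | rfl⟩ := m.eq_nat_or_neg
  · exact_mod_cast h.add_nat x ξ k
  · have h1 := h.add_nat (x + ((-(k : ℤ) : ℤ) : ℝ)) ξ k
    have h2 : x + ((-(k : ℤ) : ℤ) : ℝ) + (k : ℝ) = x := by push_cast; ring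
    rw [h2] at h1
    rw [h1, ← mul_assoc, ← e_add]
    have h3 : ((-(k : ℤ) : ℤ) : ℝ) * ξ + k * ξ = 0 := by push_cast; ring
    rw [h3, e_zero, one_mul]

/-- The inverse Zak transform. -/
noncomputable def win (G : Plane → ℂ) (t : ℝ) : ℂ := ∫ ξ in (0 : ℝ)..1, G (t, ξ)

theorem win_add_int {G : Plane → ℂ} (h : QPer G) (t : ℝ) (m : ℤ) :
    win G (t + m) = ∫ ξ in (0 : ℝ)..1, e (m * ξ) * G (t, ξ) := by
  unfold win
  exact intervalIntegral.integral_congr fun ξ _ => h.add_int t ξ m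

theorem continuous_win {G : Plane → ℂ} (hG : Continuous G) : Continuous (win G) := by
  unfold win
  exact intervalIntegral.continuous_parametric_intervalIntegral_of_continuous'
    (f := fun t ξ => G (t, ξ)) hG 0 1

theorem hasSum_win {G : Plane → ℂ} (hG : Continuous G) (h : QPer G) (t : ℝ) :
    HasSum (fun n : ℤ => ‖win G (t - n)‖ ^ 2) (∫ ξ in (0 : ℝ)..1, ‖G (t, ξ)‖ ^ 2) := by
  have hc : Continuous fun ξ => G (t, ξ) := hG.comp (by fun_prop)
  have hm : MemLp (fun ξ => G (t, ξ)) 2 (volume.restrict (Set.Ioc (0 : ℝ) 1)) := by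
    obtain ⟨C, hC⟩ := (isCompact_Icc (a := (0 : ℝ)) (b := 1)).exists_bound_of_continuousOn
      hc.continuousOn
    refine MemLp.of_bound hc.aestronglyMeasurable C ?_
    filter_upwards [ae_restrict_mem measurableSet_Ioc] with ξ hξ
    exact hC ξ (Set.Ioc_subset_Icc_self hξ)
  have h2 := hasSum_sq_fourierCoeffOn (zero_lt_one' ℝ) hm
  have h3 : ∀ n : ℤ, fourierCoeffOn (zero_lt_one' ℝ) (fun ξ => G (t, ξ)) n = win G (t - n) := by
    intro n
    rw [fourierCoeffOn_eq_integral]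
    have h4 : t - (n : ℝ) = t + ((-n : ℤ) : ℝ) := by push_cast; ring
    rw [h4, win_add_int h]
    simp only [sub_zero, div_one, one_smul, smul_eq_mul]
    refine intervalIntegral.integral_congr fun ξ _ => ?_
    rw [fourier_coe_apply, e]
    congr 2
    push_cast
    ring
  simp only [h3, sub_zero, inv_one, one_smul] at h2
  exact h2

theorem norm_qper_bdd {G : Plane → ℂ} (hG : Continuous G) (h : QPer G) :
    ∃ C : ℝ, ∀ p, ‖G p‖ ≤ C := by
  have hK : IsCompact (Set.Icc (0 : ℝ) 1 ×ˢ Set.Icc (0 : ℝ) 1) := isCompact_Icc.prod isCompact_Icc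
  obtain ⟨C, hC⟩ := hK.exists_bound_of_continuousOn hG.continuousOn
  refine ⟨C, fun p => ?_⟩
  obtain ⟨x, ξ⟩ := p
  have hx : ‖G (x, ξ)‖ = ‖G (Int.fract x, ξ)‖ := by
    have := h.add_int (Int.fract x) ξ ⌊x⌋
    rw [Int.fract_add_floor] at this
    rw [this, norm_mul, norm_e, one_mul]
  have hy : G (Int.fract x, ξ) = G (Int.fract x, Int.fract ξ) := by
    have hp : Function.Periodic (fun ξ => G (Int.fract x, ξ)) 1 := fun ξ => h.2 _ ξ
    have := hp.sub_int_mul_eq ⌊ξ⌋ (x := ξ)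
    simp only [mul_one] at this
    exact this.symm
  rw [hx, hy]
  exact hC _ ⟨⟨Int.fract_nonneg _, (Int.fract_lt_one _).le⟩,
    ⟨Int.fract_nonneg _, (Int.fract_lt_one _).le⟩⟩

theorem memLp_win {G : Plane → ℂ} (hG : Continuous G) (h : QPer G) :
    MemLp (win G) 2 volume := by
  obtain ⟨C, hC⟩ := norm_qper_bdd hG h
  have hc := continuous_win hG
  rw [memLp_two_iff_integrable_sq_norm hc.aestronglyMeasurable]
  refine ⟨(hc.norm.pow 2).aestronglyMeasurable, ?_⟩
  have hm : Measurable fun t => ENNReal.ofReal (‖win G t‖ ^ 2) :=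
    ENNReal.measurable_ofReal.comp (hc.norm.pow 2).measurable
  have h0 : ∀ t, ‖‖win G t‖ ^ 2‖ₑ = ENNReal.ofReal (‖win G t‖ ^ 2) := by
    intro t
    exact Real.enorm_of_nonneg (by positivity)
  rw [hasFiniteIntegral_iff_enorm]
  simp only [h0]
  have h1 : ∀ n : ℤ, ∫⁻ t in Set.Ioc (n : ℝ) (n + 1), ENNReal.ofReal (‖win G t‖ ^ 2) =
      ∫⁻ t in Set.Ioc (0 : ℝ) 1, ENNReal.ofReal (‖win G (t + n)‖ ^ 2) := by
    intro n
    have h2 := (measurePreserving_add_right volume (n : ℝ)).setLIntegral_comp_preimage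
      (measurableSet_Ioc (a := (n : ℝ)) (b := n + 1)) hm
    rw [← h2]
    congr 2
    ext t
    simp only [Set.mem_preimage, Set.mem_Ioc]
    constructor
    · rintro ⟨h3, h4⟩
      constructor <;> linarith
    · rintro ⟨h3, h4⟩
      constructor <;> linarith
  rw [← setLIntegral_univ, ← iUnion_Ioc_intCast ℝ,
    lintegral_iUnion (fun _ => measurableSet_Ioc) (Set.pairwise_disjoint_Ioc_intCast ℝ)]
  simp only [h1]
  have hm2 : ∀ n : ℤ, AEMeasurable (fun t : ℝ => ENNReal.ofReal (‖win G (t + n)‖ ^ 2))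
      (volume.restrict (Set.Ioc (0 : ℝ) 1)) := fun n =>
    (hm.comp (measurable_add_const (n : ℝ))).aemeasurable
  rw [← lintegral_tsum hm2]
  have h5 : ∀ t : ℝ, ∑' n : ℤ, ENNReal.ofReal (‖win G (t + n)‖ ^ 2) ≤
      ENNReal.ofReal (C ^ 2) := by
    intro t
    have h6 := hasSum_win hG h t
    have h7 : HasSum (fun n : ℤ => ‖win G (t + n)‖ ^ 2) (∫ ξ in (0 : ℝ)..1, ‖G (t, ξ)‖ ^ 2) := by
      rw [← (Equiv.neg ℤ).hasSum_iff] at h6
      refine h6.congr_fun ?_
      intro n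
      simp
    rw [← ENNReal.ofReal_tsum_of_nonneg (fun n => by positivity) h7.summable, h7.tsum_eq]
    refine ENNReal.ofReal_le_ofReal ?_
    have hc2 : Continuous fun ξ : ℝ => ‖G (t, ξ)‖ ^ 2 := by fun_prop
    calc ∫ ξ in (0 : ℝ)..1, ‖G (t, ξ)‖ ^ 2 ≤ ∫ ξ in (0 : ℝ)..1, C ^ 2 := by
          refine intervalIntegral.integral_mono_on zero_le_one (hc2.intervalIntegrable _ _)
            (continuous_const.intervalIntegrable _ _) fun ξ _ => ?_
          exact pow_le_pow_left₀ (norm_nonneg _) (hC _) 2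
      _ = C ^ 2 := by simp
  calc ∫⁻ t in Set.Ioc (0 : ℝ) 1, ∑' n : ℤ, ENNReal.ofReal (‖win G (t + n)‖ ^ 2)
      ≤ ∫⁻ t in Set.Ioc (0 : ℝ) 1, ENNReal.ofReal (C ^ 2) := lintegral_mono fun t => h5 t
    _ < ⊤ := by
        rw [setLIntegral_const, Real.volume_Ioc]
        exact ENNReal.mul_lt_top ENNReal.ofReal_lt_top ENNReal.ofReal_lt_top

theorem win_ne_zero {G : Plane → ℂ} (hG : Continuous G) (h : QPer G) {t : ℝ}
    (ht : ∀ ξ, G (t, ξ) ≠ 0) : win G ≠ 0 := by
  intro h0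
  have h1 := hasSum_win hG h t
  simp only [h0, Pi.zero_apply, norm_zero] at h1
  have h2 : (∫ ξ in (0 : ℝ)..1, ‖G (t, ξ)‖ ^ 2) = 0 := by
    refine h1.unique ?_
    have h5 : (fun _ : ℤ => (0 : ℝ) ^ 2) = fun _ => 0 := by funext; simp
    rw [h5]
    exact hasSum_zero
  have hc2 : Continuous fun ξ : ℝ => ‖G (t, ξ)‖ ^ 2 := by fun_prop
  have h3 : 0 < ∫ ξ in (0 : ℝ)..1, ‖G (t, ξ)‖ ^ 2 := by
    refine intervalIntegral.intervalIntegral_pos_of_pos (hc2.intervalIntegrable _ _) (fun ξ => ?_)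
      zero_lt_one
    have := norm_pos_iff.2 (ht ξ)
    positivity
  linarith

/-- The translate of a function on the plane. -/
noncomputable def shift (z : Plane) (G : Plane → ℂ) (p : Plane) : ℂ :=
  e (z.2 * p.1) * G (p.1 - z.1, p.2 - z.2)

theorem QPer.shift {G : Plane → ℂ} (h : QPer G) (z : Plane) : QPer (shift z G) := by
  refine ⟨fun x ξ => ?_, fun x ξ => ?_⟩
  · simp only [HRTCounter.shift]
    rw [show x + 1 - z.1 = (x - z.1) + 1 by ring, h.1, ← mul_assoc, ← mul_assoc, ← e_add, ← e_add]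
    congr 2
    ring
  · simp only [HRTCounter.shift]
    rw [show ξ + 1 - z.2 = (ξ - z.2) + 1 by ring, h.2]

theorem continuous_shift {G : Plane → ℂ} (hG : Continuous G) (z : Plane) :
    Continuous (shift z G) := by
  unfold shift
  have := continuous_e
  fun_prop

theorem win_shift {G : Plane → ℂ} (h : QPer G) (z : Plane) (t : ℝ) :
    win (shift z G) t = e (z.2 * t) * win G (t - z.1) := by
  simp only [win, shift]
  rw [intervalIntegral.integral_const_mul]
  congr 1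
  have hp : Function.Periodic (fun ξ => G (t - z.1, ξ)) 1 := fun ξ => h.2 _ ξ
  have h1 := hp.intervalIntegral_add_eq (0 - z.2) 0
  rw [zero_add] at h1
  rw [← h1, intervalIntegral.integral_comp_sub_right (fun ξ => G (t - z.1, ξ))]
  congr 1
  ring

theorem integral_char {G : Plane → ℂ} (h : QPer G) (k : ℤ × ℤ) (t : ℝ) :
    ∫ ξ in (0 : ℝ)..1, e (k.1 * t + k.2 * ξ) * G (t, ξ) = e (k.1 * t) * win G (t + k.2) := by
  rw [win_add_int h, ← intervalIntegral.integral_const_mul]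
  refine intervalIntegral.integral_congr fun ξ _ => ?_
  simp only [e_add]
  ring

end HRTCounter
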